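import Pool.Agent.R646.A.Reg

set_option autoImplicit false

/-!
# Automatic structures, geodesic words and the ShortLex language
-/

namespace Pool.Agent.R646.A

variable {G : Type*} [Group G] (A : Set G)

/-- the element of `G` represented by a word over `A` -/
def evalWord (w : List A) : G := (w.map Subtype.val).prod

/-- a word over `A` is geodesic if no word over `A` representing the same element is shorter -/
def IsGeodesic (w : List A) : Prop :=
  ∀ w' : List A, evalWord A w' = evalWord A w → w.length ≤ w'.length

/-- `L` is (the language of) an automatic structure over `A`: it is regular, maps onto `G`, and for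
`x` in `A` or `x = 1` the padded pairs `(u, v)` of words of `L` with `u x = v` in `G` form a
regular language -/
def IsAutomaticStructure (L : Language A) : Prop :=
  L.IsRegular ∧ (∀ g : G, ∃ w ∈ L, evalWord A w = g) ∧
  ∀ x : G, (x ∈ A ∨ x = 1) → Language.IsRegular
    ({z | ∃ u ∈ L, ∃ v ∈ L, evalWord A u * x = evalWord A v ∧ z = pad u v} :
      Language (Option A × Option A))

/-- some automatic structure over `A` consists of geodesic words -/
def WeaklyGeodesicallyAutomatic : Prop :=
  ∃ L : Language A, IsAutomaticStructure A L ∧ ∀ w ∈ L, IsGeodesic A w

/-- the ShortLex least words representing the elements of `G`, for a total order on `A` -/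
def shortLexLanguage (r : LinearOrder A) : Language A :=
  {w | ∀ w' : List A, evalWord A w' = evalWord A w → w' ≠ w → List.Shortlex r.lt w w'}

/-- ShortLex-automatic with respect to `A` and a total order on `A` -/
def ShortLexAutomatic (r : LinearOrder A) : Prop :=
  IsAutomaticStructure A (shortLexLanguage A r)

end Pool.Agent.R646.A
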