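import Pool.Agent.R646.A.Nf

set_option autoImplicit false
set_option linter.unusedSectionVars false

/-!
# Fellow travelling of the normal forms
-/

namespace Pool.Agent.R646.A

/-- the counters of `g` are those of `u` plus a translation -/
def Cf (g : Gam) (e : Sgn) (f1 f2 f3 f4 : ℕ) (u : List Ltr) : Prop :=
  g.a = sg e.1 * f1 + (evl u).a ∧ g.b = sg e.2.1 * f2 + (evl u).b ∧
  g.c = sg e.2.2.1 * f3 + (evl u).c ∧ g.d = sg e.2.2.2 * f4 + (evl u).d

section

variable {x : Ent} {e : Sgn} {A B C D : ℕ}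

theorem core_len (hx : x ∈ table) (e : Sgn) :
    (c1 x e).length + (c2 x e).length + (c3 x e).length ≤ 10 := by
  obtain ⟨-, h1, -, -, h2, h3, h4, h5⟩ := table_ok x hx e
  simp only [List.length_append] at h1
  split_ifs at h1 <;> omega

/-- words obtained by a partial bulk -/
theorem cf_q_false (e : Sgn) (A n : ℕ) :
    Cf (tr (2 * A * sg e.1) 0 0 0 * evl (List.replicate n (true, e.2.2.2))) e (2 * A) 0 0 n [] := by
  rw [mul_ev_q]
  unfold Cf
  refine ⟨?_, ?_, ?_, ?_⟩ <;> simp [tr, evl] <;> ring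

theorem cf_p_false (e : Sgn) (n : ℕ) :
    Cf (evl (List.replicate n (false, e.1))) e n 0 0 0 [] := by
  have := mul_ev_p 1 e.1 n
  rw [one_mul] at this
  rw [this]
  unfold Cf
  refine ⟨?_, ?_, ?_, ?_⟩ <;> simp [evl] <;> ring

theorem cf_core (e : Sgn) (A B C D : ℕ) (u : List Ltr) :
    Cf (tr (2 * A * sg e.1) (2 * B * sg e.2.1) (2 * C * sg e.2.2.1) (2 * D * sg e.2.2.2) * evl u)
      e (2 * A) (2 * B) (2 * C) (2 * D) u := by
  rw [tr_mul]
  unfold Cf
  refine ⟨?_, ?_, ?_, ?_⟩ <;> simp <;> ring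

theorem cf_q_true (e : Sgn) (A D n : ℕ) (u : List Ltr) (h : n ≠ 0 → (evl u).s = true) :
    Cf (tr (2 * A * sg e.1) 0 0 (2 * D * sg e.2.2.2) * evl u *
      evl (List.replicate n (true, e.2.1))) e (2 * A) n 0 (2 * D) u := by
  by_cases hn : n = 0
  · subst hn
    have := cf_core e A 0 0 D u
    simpa [evl] using this
  · have h := h hn
    rw [mul_ev_q, tr_mul]
    unfold Cf
    rw [h]
    refine ⟨?_, ?_, ?_, ?_⟩ <;> simp <;> ring

theorem cf_p_true (e : Sgn) (A B D n : ℕ) (u : List Ltr) (h : n ≠ 0 → (evl u).t = true) :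
    Cf (tr (2 * A * sg e.1) (2 * B * sg e.2.1) 0 (2 * D * sg e.2.2.2) * evl u *
      evl (List.replicate n (false, e.2.2.1))) e (2 * A) (2 * B) n (2 * D) u := by
  by_cases hn : n = 0
  · subst hn
    have := cf_core e A B 0 D u
    simpa [evl] using this
  · have h := h hn
    rw [mul_ev_p, tr_mul]
    unfold Cf
    rw [h]
    refine ⟨?_, ?_, ?_, ?_⟩ <;> simp <;> ring

theorem prefix_form (hx : x ∈ table) (hs : side x A B C D) (t : ℕ) :
    ∃ f1 f2 f3 f4 : ℕ, ∃ u : List Ltr, u.length ≤ 10 ∧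
      Cf (evl ((wd x e A B C D).take t)) e f1 f2 f3 f4 u ∧
      f1 = min t (2 * A) ∧ f4 = min (t - 2 * A) (2 * D) ∧
      f2 ≤ min (t - 2 * A - 2 * D) (2 * B) ∧ min (t - 2 * A - 2 * D) (2 * B) ≤ f2 + 10 ∧
      f3 ≤ min (t - 2 * A - 2 * D - 2 * B) (2 * C) ∧
      min (t - 2 * A - 2 * D - 2 * B) (2 * C) ≤ f3 + 10 := by
  obtain ⟨-, -, h2, h3, -⟩ := table_ok x hx e
  have hlen := core_len hx e
  obtain ⟨sA, sB, sC, sD⟩ := hs
  have hB : B ≠ 0 → (evl (c1 x e)).s = true := fun h => h2 (fun h0 => h (sB h0))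
  have hC : C ≠ 0 → (evl (c1 x e ++ c2 x e)).t = true := fun h => h3 (fun h0 => h (sC h0))
  have e1 : ∀ (T : Gam) (u v : List Ltr), T * evl u * evl v = T * evl (u ++ v) := by
    intro T u v; simp only [evl, ev_append, mul_assoc]
  have tk : ∀ (u v : List Ltr) (i : ℕ), evl ((u ++ v).take i) =
      evl (u.take i) * evl (v.take (i - u.length)) := by
    intro u v i
    rw [List.take_append]; simp only [evl, ev_append]
  unfold wd
  rw [tk, tk, tk, tk, tk, tk]
  simp only [List.length_replicate, List.take_replicate, ← mul_assoc]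
  by_cases q1 : t < 2 * A
  · refine ⟨t, 0, 0, 0, [], by simp, ?_, by omega, by omega, by omega, by omega, by omega, by omega⟩
    have z1 : t - 2 * A = 0 := by omega
    have z2 : min t (2 * A) = t := by omega
    rw [z1, z2]
    simp only [Nat.zero_sub, Nat.zero_min, List.replicate_zero, List.take_zero]
    have := cf_p_false e t
    simpa [evl] using this
  have z1 : min t (2 * A) = 2 * A := by omega
  rw [z1, form1]
  by_cases q2 : t - 2 * A < 2 * D
  · refine ⟨2 * A, 0, 0, t - 2 * A, [], by simp, ?_, by omega, by omega, by omega, by omega,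
      by omega, by omega⟩
    have z3 : t - 2 * A - 2 * D = 0 := by omega
    have z4 : min (t - 2 * A) (2 * D) = t - 2 * A := by omega
    rw [z3, z4]
    simp only [Nat.zero_sub, Nat.zero_min, List.replicate_zero, List.take_zero]
    have := cf_q_false e A (t - 2 * A)
    simpa [evl] using this
  have z2 : min (t - 2 * A) (2 * D) = 2 * D := by omega
  rw [z2, ← form1, form2]
  by_cases q3 : t - 2 * A - 2 * D < (c1 x e).length
  · refine ⟨2 * A, 0, 0, 2 * D, (c1 x e).take (t - 2 * A - 2 * D), ?_, ?_, by omega, by omega,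
      by omega, by omega, by omega, by omega⟩
    · rw [List.length_take]; omega
    have z3 : t - 2 * A - 2 * D - (c1 x e).length = 0 := by omega
    rw [z3]
    simp only [Nat.zero_sub, Nat.zero_min, List.replicate_zero, List.take_zero]
    have := cf_core e A 0 0 D ((c1 x e).take (t - 2 * A - 2 * D))
    simpa [evl] using this
  have z3 : (c1 x e).take (t - 2 * A - 2 * D) = c1 x e := List.take_of_length_le (by omega)
  rw [z3]
  by_cases q4 : t - 2 * A - 2 * D - (c1 x e).length < 2 * B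
  · refine ⟨2 * A, t - 2 * A - 2 * D - (c1 x e).length, 0, 2 * D, c1 x e, by omega, ?_, by omega,
      by omega, by omega, by omega, by omega, by omega⟩
    have z5 : t - 2 * A - 2 * D - (c1 x e).length - 2 * B = 0 := by omega
    have z6 : min (t - 2 * A - 2 * D - (c1 x e).length) (2 * B) =
      t - 2 * A - 2 * D - (c1 x e).length := by omega
    rw [z5, z6]
    simp only [Nat.zero_sub, Nat.zero_min, List.replicate_zero, List.take_zero]
    have := cf_q_true e A D (t - 2 * A - 2 * D - (c1 x e).length) (c1 x e)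
      (fun h => hB (by omega))
    simpa [evl] using this
  have z4 : min (t - 2 * A - 2 * D - (c1 x e).length) (2 * B) = 2 * B := by omega
  rw [z4, form3 _ _ _ _ _ hB, e1 (tr _ _ _ _) (c1 x e)]
  by_cases q5 : t - 2 * A - 2 * D - (c1 x e).length - 2 * B < (c2 x e).length
  · refine ⟨2 * A, 2 * B, 0, 2 * D,
      c1 x e ++ (c2 x e).take (t - 2 * A - 2 * D - (c1 x e).length - 2 * B), ?_, ?_, by omega,
      by omega, by omega, by omega, by omega, by omega⟩
    · rw [List.length_append, List.length_take]; omega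
    have z5 : t - 2 * A - 2 * D - (c1 x e).length - 2 * B - (c2 x e).length = 0 := by omega
    rw [z5]
    simp only [Nat.zero_sub, Nat.zero_min, List.replicate_zero, List.take_zero]
    have := cf_core e A B 0 D
      (c1 x e ++ (c2 x e).take (t - 2 * A - 2 * D - (c1 x e).length - 2 * B))
    simpa [evl] using this
  have z5 : (c2 x e).take (t - 2 * A - 2 * D - (c1 x e).length - 2 * B) = c2 x e :=
    List.take_of_length_le (by omega)
  rw [z5]
  by_cases q6 : t - 2 * A - 2 * D - (c1 x e).length - 2 * B - (c2 x e).length < 2 * C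
  · refine ⟨2 * A, 2 * B, t - 2 * A - 2 * D - (c1 x e).length - 2 * B - (c2 x e).length, 2 * D,
      c1 x e ++ c2 x e, ?_, ?_, by omega, by omega, by omega, by omega, by omega, by omega⟩
    · rw [List.length_append]; omega
    have z7 : t - 2 * A - 2 * D - (c1 x e).length - 2 * B - (c2 x e).length - 2 * C = 0 := by omega
    have z8 : min (t - 2 * A - 2 * D - (c1 x e).length - 2 * B - (c2 x e).length) (2 * C) =
      t - 2 * A - 2 * D - (c1 x e).length - 2 * B - (c2 x e).length := by omega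
    rw [z7, z8]
    simp only [List.take_zero]
    have := cf_p_true e A B D (t - 2 * A - 2 * D - (c1 x e).length - 2 * B - (c2 x e).length)
      (c1 x e ++ c2 x e) (fun h => hC (by omega))
    simpa [evl] using this
  have z6 : min (t - 2 * A - 2 * D - (c1 x e).length - 2 * B - (c2 x e).length) (2 * C) = 2 * C := by
    omega
  rw [z6, form4 _ _ _ _ _ _ hC, e1 (tr _ _ _ _) (c1 x e ++ c2 x e)]
  refine ⟨2 * A, 2 * B, 2 * C, 2 * D, c1 x e ++ c2 x e ++
    (c3 x e).take (t - 2 * A - 2 * D - (c1 x e).length - 2 * B - (c2 x e).length - 2 * C), ?_,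
    cf_core e A B C D _, by omega, by omega, by omega, by omega, by omega, by omega⟩
  rw [List.length_append, List.length_append, List.length_take]; omega

end

theorem ev_small (u : List Ltr) : (evl u).a.natAbs ≤ u.length ∧ (evl u).b.natAbs ≤ u.length ∧
    (evl u).c.natAbs ≤ u.length ∧ (evl u).d.natAbs ≤ u.length := by
  obtain ⟨n, ⟨h0, h1, h2, h3, h4, -⟩, -⟩ := trav u
  refine ⟨?_, ?_, ?_, ?_⟩ <;> omega

theorem ar1 {t A A' f k : ℕ} (hf : f = min t (2 * A)) (hk : k = min t (2 * A'))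
    (zA : 2 * A ≤ 2 * A' + 3 ∧ 2 * A' ≤ 2 * A + 3) :
    f ≤ 2 * A ∧ k ≤ 2 * A' ∧ f ≤ k + 60 ∧ k ≤ f + 60 := by omega

theorem ar4 {t A A' D D' f k : ℕ} (hf : f = min (t - 2 * A) (2 * D))
    (hk : k = min (t - 2 * A') (2 * D'))
    (zA : 2 * A ≤ 2 * A' + 3 ∧ 2 * A' ≤ 2 * A + 3) (zD : 2 * D ≤ 2 * D' + 3 ∧ 2 * D' ≤ 2 * D + 3) :
    f ≤ 2 * D ∧ k ≤ 2 * D' ∧ f ≤ k + 60 ∧ k ≤ f + 60 := by omega

theorem ar2 {r r' B B' f k : ℕ} (hf : f ≤ min r (2 * B)) (hf' : min r (2 * B) ≤ f + 10)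
    (hk : k ≤ min r' (2 * B')) (hk' : min r' (2 * B') ≤ k + 10)
    (hr : r ≤ r' + 12 ∧ r' ≤ r + 12) (zB : 2 * B ≤ 2 * B' + 3 ∧ 2 * B' ≤ 2 * B + 3) :
    f ≤ 2 * B ∧ k ≤ 2 * B' ∧ f ≤ k + 60 ∧ k ≤ f + 60 := by omega

theorem arr2 (t : ℕ) {A A' D D' : ℕ} (zA : 2 * A ≤ 2 * A' + 3 ∧ 2 * A' ≤ 2 * A + 3)
    (zD : 2 * D ≤ 2 * D' + 3 ∧ 2 * D' ≤ 2 * D + 3) :
    t - 2 * A - 2 * D ≤ t - 2 * A' - 2 * D' + 12 ∧ t - 2 * A' - 2 * D' ≤ t - 2 * A - 2 * D + 12 := by
  omega

theorem arr3 (t : ℕ) {A A' B B' D D' : ℕ} (zA : 2 * A ≤ 2 * A' + 3 ∧ 2 * A' ≤ 2 * A + 3)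
    (zD : 2 * D ≤ 2 * D' + 3 ∧ 2 * D' ≤ 2 * D + 3) (zB : 2 * B ≤ 2 * B' + 3 ∧ 2 * B' ≤ 2 * B + 3) :
    t - 2 * A - 2 * D - 2 * B ≤ t - 2 * A' - 2 * D' - 2 * B' + 12 ∧
      t - 2 * A' - 2 * D' - 2 * B' ≤ t - 2 * A - 2 * D - 2 * B + 12 := by
  omega

/-- one coordinate -/
theorem coord {s s' : Bool} {n n' m m' k k' : ℕ} {v v' : ℤ} {N N' : ℤ}
    (hN : N = sg s * (n + 2 * m)) (hN' : N' = sg s' * (n' + 2 * m'))
    (hn : n ≤ 2) (hn' : n' ≤ 2)
    (hd : (N - N').natAbs ≤ 1) (hk : k ≤ 2 * m) (hk' : k' ≤ 2 * m')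
    (hkk : k ≤ k' + 60 ∧ k' ≤ k + 60) (hv : v.natAbs ≤ 10) (hv' : v'.natAbs ≤ 10) :
    ((sg s * k + v) - (sg s' * k' + v')).natAbs ≤ 100 := by
  cases s <;> cases s' <;> simp only [sg] at hN hN' ⊢ <;> simp at hN hN' ⊢ <;> omega

theorem sizes {s s' : Bool} {n n' m m' : ℕ} {N N' : ℤ}
    (hN : N = sg s * (n + 2 * m)) (hN' : N' = sg s' * (n' + 2 * m'))
    (hn : n ≤ 2) (hn' : n' ≤ 2) (hd : (N - N').natAbs ≤ 1) :
    2 * m ≤ 2 * m' + 3 ∧ 2 * m' ≤ 2 * m + 3 := by
  cases s <;> cases s' <;> simp only [sg] at hN hN' <;> simp at hN hN' <;> omega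

/-- **Fellow travelling.** -/
theorem fellow {w w' : List Ltr} (hw : w ∈ NF) (hw' : w' ∈ NF)
    (ha : ((evl w).a - (evl w').a).natAbs ≤ 1) (hb : ((evl w).b - (evl w').b).natAbs ≤ 1)
    (hc : ((evl w).c - (evl w').c).natAbs ≤ 1) (hd : ((evl w).d - (evl w').d).natAbs ≤ 1)
    (t : ℕ) : (evl (w.take t))⁻¹ * evl (w'.take t) ∈ Box 100 := by
  obtain ⟨x, hx, e, A, B, C, D, hs, rfl⟩ := hw
  obtain ⟨x', hx', e', A', B', C', D', hs', rfl⟩ := hw'
  obtain ⟨f1, f2, f3, f4, u, hu, hcf, g1, g4, g2, g2', g3, g3'⟩ := prefix_form (e := e) hx hs t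
  obtain ⟨k1, k2, k3, k4, v, hv, hcf', i1, i4, i2, i2', i3, i3'⟩ :=
    prefix_form (e := e') hx' hs' t
  rw [ev_wd hx hs, ev_wd hx' hs'] at ha hb hc hd
  simp only at ha hb hc hd
  obtain ⟨-, -, -, -, n1, n2, n3, n4⟩ := table_ok x hx e
  obtain ⟨-, -, -, -, n1', n2', n3', n4'⟩ := table_ok x' hx' e'
  obtain ⟨sA, sB, sC, sD⟩ := hs
  obtain ⟨sA', sB', sC', sD'⟩ := hs'
  have zA := sizes rfl rfl n1 n1' ha
  have zB := sizes rfl rfl n2 n2' hb
  have zC := sizes rfl rfl n3 n3' hc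
  have zD := sizes rfl rfl n4 n4' hd
  obtain ⟨u1, u2, u3, u4⟩ := ev_small u
  obtain ⟨v1, v2, v3, v4⟩ := ev_small v
  obtain ⟨c1, c2, c3, c4⟩ := hcf
  obtain ⟨d1, d2, d3, d4⟩ := hcf'
  obtain ⟨r1, r1', r1''⟩ := ar1 g1 i1 zA
  obtain ⟨r4, r4', r4''⟩ := ar4 g4 i4 zA zD
  obtain ⟨r2, r2', r2''⟩ := ar2 g2 g2' i2 i2' (arr2 t zA zD) zB
  obtain ⟨r3, r3', r3''⟩ := ar2 g3 g3' i3 i3' (arr3 t zA zD zB) zC
  apply diff_mem_box
  · rw [c1, d1]
    exact coord rfl rfl n1 n1' ha r1 r1' r1'' (u1.trans hu) (v1.trans hv)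
  · rw [c2, d2]
    exact coord rfl rfl n2 n2' hb r2 r2' r2'' (u2.trans hu) (v2.trans hv)
  · rw [c3, d3]
    exact coord rfl rfl n3 n3' hc r3 r3' r3'' (u3.trans hu) (v3.trans hv)
  · rw [c4, d4]
    exact coord rfl rfl n4 n4' hd r4 r4' r4'' (u4.trans hu) (v4.trans hv)

/-- the counters change by at most one -/
theorem step_small (g : Gam) (y : Ltr) : (g.a - (g * iota y).a).natAbs ≤ 1 ∧
    (g.b - (g * iota y).b).natAbs ≤ 1 ∧ (g.c - (g * iota y).c).natAbs ≤ 1 ∧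
    (g.d - (g * iota y).d).natAbs ≤ 1 := by
  obtain ⟨a, b, c, d, s, t⟩ := g
  obtain ⟨y1, y2⟩ := y
  cases y1
  · rw [mul_p]
    cases t <;> cases y2 <;> simp [sg]
  · rw [mul_q]
    cases s <;> cases y2 <;> simp [sg]

/-- the relations are regular -/
theorem NF_rel (y : Ltr) : Language.IsRegular
    ({z | ∃ u ∈ NF, ∃ v ∈ NF, evl u * iota y = evl v ∧ z = pad u v} :
      Language (Option Ltr × Option Ltr)) := by
  apply relReg iota (Box 100) NF_regular (box_finite _) (one_mem_box _) (iota y)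
  intro u hu v hv h t
  obtain ⟨h1, h2, h3, h4⟩ := step_small (evl u) y
  rw [show evl u * iota y = evl v from h] at h1 h2 h3 h4
  exact fellow hu hv h1 h2 h3 h4 t

theorem NF_rel_one : Language.IsRegular
    ({z | ∃ u ∈ NF, ∃ v ∈ NF, evl u * 1 = evl v ∧ z = pad u v} :
      Language (Option Ltr × Option Ltr)) := by
  apply relReg iota (Box 100) NF_regular (box_finite _) (one_mem_box _) 1
  intro u hu v hv h t
  rw [mul_one] at h
  have h' : evl u = evl v := h
  apply fellow hu hv <;> rw [h'] <;> simp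

end Pool.Agent.R646.A
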