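import Pool.Agent.R646.A.Reg

set_option autoImplicit false
set_option linter.unusedSectionVars false

/-!
# The ambient group
-/

namespace Pool.Agent.R646.A

/-- The ambient group `(ℤ ≀ C₂) × (ℤ ≀ C₂)`, written with four counters and two parities. -/
@[ext] structure Gam where
  /-- counter -/
  a : ℤ
  /-- counter -/
  b : ℤ
  /-- counter -/
  c : ℤ
  /-- counter -/
  d : ℤ
  /-- parity -/
  s : Bool
  /-- parity -/
  t : Bool
deriving DecidableEq

namespace Gam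

instance : Mul Gam := ⟨fun g h => ⟨g.a + (bif g.t then h.c else h.a), g.b + (bif g.s then h.d else h.b),
  g.c + (bif g.t then h.a else h.c), g.d + (bif g.s then h.b else h.d), xor g.s h.s, xor g.t h.t⟩⟩

instance : One Gam := ⟨⟨0, 0, 0, 0, false, false⟩⟩

instance : Inv Gam := ⟨fun g => ⟨-(bif g.t then g.c else g.a), -(bif g.s then g.d else g.b),
  -(bif g.t then g.a else g.c), -(bif g.s then g.b else g.d), g.s, g.t⟩⟩

theorem mul_def (g h : Gam) : g * h = ⟨g.a + (bif g.t then h.c else h.a),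
  g.b + (bif g.s then h.d else h.b), g.c + (bif g.t then h.a else h.c),
  g.d + (bif g.s then h.b else h.d), xor g.s h.s, xor g.t h.t⟩ := rfl

theorem one_def : (1 : Gam) = ⟨0, 0, 0, 0, false, false⟩ := rfl

theorem inv_def (g : Gam) : g⁻¹ = ⟨-(bif g.t then g.c else g.a), -(bif g.s then g.d else g.b),
  -(bif g.t then g.a else g.c), -(bif g.s then g.b else g.d), g.s, g.t⟩ := rfl

instance : Group Gam := Group.ofLeftAxioms
  (by
    rintro ⟨a, b, c, d, s, t⟩ ⟨a', b', c', d', s', t'⟩ ⟨a'', b'', c'', d'', s'', t''⟩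
    cases s <;> cases t <;> cases s' <;> cases t' <;>
      simp [mul_def, add_assoc])
  (by
    rintro ⟨a, b, c, d, s, t⟩
    simp [mul_def, one_def])
  (by
    rintro ⟨a, b, c, d, s, t⟩
    cases s <;> cases t <;> simp [mul_def, one_def, inv_def])

@[simp] theorem one_a : (1 : Gam).a = 0 := rfl
@[simp] theorem one_b : (1 : Gam).b = 0 := rfl
@[simp] theorem one_c : (1 : Gam).c = 0 := rfl
@[simp] theorem one_d : (1 : Gam).d = 0 := rfl
@[simp] theorem one_s : (1 : Gam).s = false := rfl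
@[simp] theorem one_t : (1 : Gam).t = false := rfl
theorem mul_a (g h : Gam) : (g * h).a = g.a + (bif g.t then h.c else h.a) := rfl
theorem mul_b (g h : Gam) : (g * h).b = g.b + (bif g.s then h.d else h.b) := rfl
theorem mul_c (g h : Gam) : (g * h).c = g.c + (bif g.t then h.a else h.c) := rfl
theorem mul_d (g h : Gam) : (g * h).d = g.d + (bif g.s then h.b else h.d) := rfl
theorem mul_s (g h : Gam) : (g * h).s = xor g.s h.s := rfl
theorem mul_t (g h : Gam) : (g * h).t = xor g.t h.t := rfl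

end Gam

/-- letters: the first component chooses between `p` (`false`) and `q` (`true`), the second one is
the sign (`false` for the generator, `true` for its inverse) -/
abbrev Ltr : Type := Bool × Bool

/-- the sign -/
def sg (e : Bool) : ℤ := if e then -1 else 1

/-- the letters in the group -/
def iota (x : Ltr) : Gam :=
  if x.1 then ⟨0, 0, 0, sg x.2, false, true⟩ else ⟨sg x.2, 0, 0, 0, true, false⟩

/-- evaluation -/
abbrev evl (w : List Ltr) : Gam := ev iota w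

theorem iota_p (e : Bool) : iota (false, e) = ⟨sg e, 0, 0, 0, true, false⟩ := rfl
theorem iota_q (e : Bool) : iota (true, e) = ⟨0, 0, 0, sg e, false, true⟩ := rfl

theorem iota_inv (x : Ltr) : (iota x)⁻¹ = iota (x.1, !x.2) := by
  obtain ⟨x1, x2⟩ := x
  cases x1 <;> cases x2 <;> rfl

theorem iota_injective : Function.Injective iota := by
  intro x y h
  obtain ⟨x1, x2⟩ := x
  obtain ⟨y1, y2⟩ := y
  cases x1 <;> cases x2 <;> cases y1 <;> cases y2 <;> first | rfl | (exfalso; revert h; decide)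

/-- multiplication by `p` on the right -/
theorem mul_p (g : Gam) (e : Bool) : g * iota (false, e) =
    ⟨g.a + (bif g.t then 0 else sg e), g.b, g.c + (bif g.t then sg e else 0), g.d, !g.s, g.t⟩ := by
  rw [iota_p, Gam.mul_def]
  ext <;> cases g.s <;> cases g.t <;> simp

/-- multiplication by `q` on the right -/
theorem mul_q (g : Gam) (e : Bool) : g * iota (true, e) =
    ⟨g.a, g.b + (bif g.s then sg e else 0), g.c, g.d + (bif g.s then 0 else sg e), g.s, !g.t⟩ := by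
  rw [iota_q, Gam.mul_def]
  ext <;> cases g.s <;> cases g.t <;> simp

/-- the support is bad: it is not connected to the base vertex -/
def Bad (a b c d : ℤ) : Prop :=
  (a = 0 ∧ d = 0 ∧ (b ≠ 0 ∨ c ≠ 0)) ∨ (b = 0 ∧ d = 0 ∧ c ≠ 0) ∨ (a = 0 ∧ c = 0 ∧ b ≠ 0)

instance (a b c d : ℤ) : Decidable (Bad a b c d) := by unfold Bad; infer_instance

/-- traversal counts -/
def bump (g : Gam) (x : Ltr) (n : ℕ × ℕ × ℕ × ℕ) : ℕ × ℕ × ℕ × ℕ :=
  if x.1 then (if g.s then (n.1, n.2.1 + 1, n.2.2.1, n.2.2.2) else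
    (n.1, n.2.1, n.2.2.1, n.2.2.2 + 1))
  else (if g.t then (n.1, n.2.1, n.2.2.1 + 1, n.2.2.2) else (n.1 + 1, n.2.1, n.2.2.1, n.2.2.2))

theorem evl_snoc (w : List Ltr) (x : Ltr) : evl (w ++ [x]) = evl w * iota x := by simp [evl]

theorem trav_step (g : Gam) (x : Ltr) (n : ℕ × ℕ × ℕ × ℕ) :
    ((bump g x n).1 + (bump g x n).2.1 + (bump g x n).2.2.1 + (bump g x n).2.2.2 =
      n.1 + n.2.1 + n.2.2.1 + n.2.2.2 + 1) ∧
    (g.a.natAbs ≤ n.1 → (g * iota x).a.natAbs ≤ (bump g x n).1) ∧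
    (g.b.natAbs ≤ n.2.1 → (g * iota x).b.natAbs ≤ (bump g x n).2.1) ∧
    (g.c.natAbs ≤ n.2.2.1 → (g * iota x).c.natAbs ≤ (bump g x n).2.2.1) ∧
    (g.d.natAbs ≤ n.2.2.2 → (g * iota x).d.natAbs ≤ (bump g x n).2.2.2) ∧
    ((g.a - n.1) % 2 = 0 → ((g * iota x).a - (bump g x n).1) % 2 = 0) ∧
    ((g.b - n.2.1) % 2 = 0 → ((g * iota x).b - (bump g x n).2.1) % 2 = 0) ∧
    ((g.c - n.2.2.1) % 2 = 0 → ((g * iota x).c - (bump g x n).2.2.1) % 2 = 0) ∧
    ((g.d - n.2.2.2) % 2 = 0 → ((g * iota x).d - (bump g x n).2.2.2) % 2 = 0) := by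
  obtain ⟨a, b, c, d, s, t⟩ := g
  obtain ⟨na, nb, nc, nd⟩ := n
  obtain ⟨x1, x2⟩ := x
  cases x1
  · rw [mul_p]
    cases t <;> cases x2 <;> simp only [bump, sg] <;>
      refine ⟨?_, ?_, ?_, ?_, ?_, ?_, ?_, ?_, ?_⟩ <;> simp <;> omega
  · rw [mul_q]
    cases s <;> cases x2 <;> simp only [bump, sg] <;>
      refine ⟨?_, ?_, ?_, ?_, ?_, ?_, ?_, ?_, ?_⟩ <;> simp <;> omega

theorem trav_par (g : Gam) (x : Ltr) (n : ℕ × ℕ × ℕ × ℕ)
    (hs : g.s = true ↔ (n.1 + n.2.2.1) % 2 = 1) (ht : g.t = true ↔ (n.2.1 + n.2.2.2) % 2 = 1)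
    (hp : (n.1 + n.2.2.2) % 2 = 1 ↔ ((n.1 + n.2.2.1) % 2 = 1 ∨ (n.2.1 + n.2.2.2) % 2 = 1)) :
    ((g * iota x).s = true ↔ ((bump g x n).1 + (bump g x n).2.2.1) % 2 = 1) ∧
    ((g * iota x).t = true ↔ ((bump g x n).2.1 + (bump g x n).2.2.2) % 2 = 1) ∧
    (((bump g x n).1 + (bump g x n).2.2.2) % 2 = 1 ↔
      (((bump g x n).1 + (bump g x n).2.2.1) % 2 = 1 ∨
        ((bump g x n).2.1 + (bump g x n).2.2.2) % 2 = 1)) := by
  obtain ⟨a, b, c, d, s, t⟩ := g
  obtain ⟨na, nb, nc, nd⟩ := n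
  obtain ⟨x1, x2⟩ := x
  simp only at hs ht hp
  cases x1
  · rw [mul_p]
    cases t <;> cases s <;> simp [bump] at hs ht hp ⊢ <;>
      refine ⟨?_, ?_, ?_⟩ <;> omega
  · rw [mul_q]
    cases s <;> cases t <;> simp [bump] at hs ht hp ⊢ <;>
      refine ⟨?_, ?_, ?_⟩ <;> omega

theorem trav_zero (g : Gam) (x : Ltr) (n : ℕ × ℕ × ℕ × ℕ)
    (hs : g.s = true ↔ (n.1 + n.2.2.1) % 2 = 1) (ht : g.t = true ↔ (n.2.1 + n.2.2.2) % 2 = 1)
    (z1 : n.1 = 0 ∧ n.2.2.2 = 0 → n.2.1 = 0 ∧ n.2.2.1 = 0)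
    (z2 : n.2.1 = 0 ∧ n.2.2.2 = 0 → n.2.2.1 = 0) (z3 : n.1 = 0 ∧ n.2.2.1 = 0 → n.2.1 = 0) :
    ((bump g x n).1 = 0 ∧ (bump g x n).2.2.2 = 0 →
      (bump g x n).2.1 = 0 ∧ (bump g x n).2.2.1 = 0) ∧
    ((bump g x n).2.1 = 0 ∧ (bump g x n).2.2.2 = 0 → (bump g x n).2.2.1 = 0) ∧
    ((bump g x n).1 = 0 ∧ (bump g x n).2.2.1 = 0 → (bump g x n).2.1 = 0) := by
  obtain ⟨a, b, c, d, s, t⟩ := g
  obtain ⟨na, nb, nc, nd⟩ := n
  obtain ⟨x1, x2⟩ := x
  simp only at hs ht z1 z2 z3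
  cases x1
  · cases t <;> simp [bump] at hs ht ⊢ <;> omega
  · cases s <;> simp [bump] at hs ht ⊢ <;> omega

/-- the number of times each edge is traversed, and the parity invariants -/
theorem trav (w : List Ltr) : ∃ n : ℕ × ℕ × ℕ × ℕ,
    (n.1 + n.2.1 + n.2.2.1 + n.2.2.2 = w.length ∧
    (evl w).a.natAbs ≤ n.1 ∧ (evl w).b.natAbs ≤ n.2.1 ∧ (evl w).c.natAbs ≤ n.2.2.1 ∧
    (evl w).d.natAbs ≤ n.2.2.2 ∧
    ((evl w).a - n.1) % 2 = 0 ∧ ((evl w).b - n.2.1) % 2 = 0 ∧ ((evl w).c - n.2.2.1) % 2 = 0 ∧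
    ((evl w).d - n.2.2.2) % 2 = 0) ∧
    (((evl w).s = true ↔ (n.1 + n.2.2.1) % 2 = 1) ∧
      ((evl w).t = true ↔ (n.2.1 + n.2.2.2) % 2 = 1) ∧
    ((n.1 + n.2.2.2) % 2 = 1 ↔ ((n.1 + n.2.2.1) % 2 = 1 ∨ (n.2.1 + n.2.2.2) % 2 = 1))) ∧
    ((n.1 = 0 ∧ n.2.2.2 = 0 → n.2.1 = 0 ∧ n.2.2.1 = 0) ∧
      (n.2.1 = 0 ∧ n.2.2.2 = 0 → n.2.2.1 = 0) ∧ (n.1 = 0 ∧ n.2.2.1 = 0 → n.2.1 = 0)) := by
  induction w using List.reverseRecOn with
  | nil => exact ⟨(0, 0, 0, 0), by simp⟩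
  | append_singleton w x ih =>
    obtain ⟨n, ⟨h0, h1, h2, h3, h4, h5, h6, h7, h8⟩, ⟨p1, p2, p3⟩, z1, z2, z3⟩ := ih
    rw [evl_snoc, List.length_append, List.length_singleton]
    obtain ⟨k0, k1, k2, k3, k4, k5, k6, k7, k8⟩ := trav_step (evl w) x n
    exact ⟨bump (evl w) x n, ⟨by omega, k1 h1, k2 h2, k3 h3, k4 h4, k5 h5, k6 h6, k7 h7, k8 h8⟩,
      trav_par _ _ _ p1 p2 p3, trav_zero _ _ _ p1 p2 z1 z2 z3⟩

/-- **Lower bound for the word length.** -/
theorem length_ge (w : List Ltr) : (evl w).a.natAbs + (evl w).b.natAbs + (evl w).c.natAbs +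
    (evl w).d.natAbs + (if Bad (evl w).a (evl w).b (evl w).c (evl w).d then 2 else 0) ≤
    w.length := by
  obtain ⟨⟨ta, tb, tc, td⟩, ⟨h0, h1, h2, h3, h4, h5, h6, h7, h8⟩, -, z1, z2, z3⟩ := trav w
  generalize evl w = g at *
  obtain ⟨a, b, c, d, s, t⟩ := g
  simp only at *
  split_ifs with hb
  · unfold Bad at hb
    rcases hb with ⟨r1, r2, r3⟩ | ⟨r1, r2, r3⟩ | ⟨r1, r2, r3⟩
    · by_cases q : ta = 0 ∧ td = 0
      · have := z1 q; omega
      · omega
    · by_cases q : tb = 0 ∧ td = 0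
      · have := z2 q; omega
      · omega
    · by_cases q : ta = 0 ∧ tc = 0
      · have := z3 q; omega
      · omega
  · omega

/-- the parity condition satisfied by the elements of the subgroup -/
def Par (g : Gam) : Prop :=
  ((g.a + g.d) % 2 = 1 ↔ ((g.a + g.c) % 2 = 1 ∨ (g.b + g.d) % 2 = 1)) ∧
  (g.s = true ↔ (g.a + g.c) % 2 = 1) ∧ (g.t = true ↔ (g.b + g.d) % 2 = 1)

theorem par_ev (w : List Ltr) : Par (evl w) := by
  obtain ⟨⟨ta, tb, tc, td⟩, ⟨-, -, -, -, -, h1, h2, h3, h4⟩, ⟨h5, h6, h7⟩, -⟩ := trav w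
  generalize evl w = g at *
  obtain ⟨a, b, c, d, s, t⟩ := g
  unfold Par
  simp only at *
  refine ⟨?_, ?_, ?_⟩
  · omega
  · rw [h5]; omega
  · rw [h6]; omega

/-- powers of `p` -/
theorem mul_ev_p (g : Gam) (e : Bool) (n : ℕ) : g * evl (List.replicate n (false, e)) =
    ⟨g.a + (bif g.t then 0 else n * sg e), g.b, g.c + (bif g.t then n * sg e else 0), g.d,
      xor g.s (decide (n % 2 = 1)), g.t⟩ := by
  induction n with
  | zero => ext <;> simp [evl]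
  | succ n ih =>
    have e1 : evl (List.replicate (n + 1) (false, e)) =
        evl (List.replicate n (false, e)) * iota (false, e) := by
      rw [List.replicate_succ']; simp [evl]
    rw [e1, ← mul_assoc, ih, mul_p]
    have h2 : decide ((n + 1) % 2 = 1) = !decide (n % 2 = 1) := by
      rcases Nat.mod_two_eq_zero_or_one n with h | h
      · have : (n + 1) % 2 = 1 := by omega
        simp [h, this]
      · have : (n + 1) % 2 = 0 := by omega
        simp [h, this]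
    ext <;> cases g.t <;> cases g.s <;> simp [h2] <;> ring

/-- powers of `q` -/
theorem mul_ev_q (g : Gam) (e : Bool) (n : ℕ) : g * evl (List.replicate n (true, e)) =
    ⟨g.a, g.b + (bif g.s then n * sg e else 0), g.c, g.d + (bif g.s then 0 else n * sg e),
      g.s, xor g.t (decide (n % 2 = 1))⟩ := by
  induction n with
  | zero => ext <;> simp [evl]
  | succ n ih =>
    have e1 : evl (List.replicate (n + 1) (true, e)) =
        evl (List.replicate n (true, e)) * iota (true, e) := by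
      rw [List.replicate_succ']; simp [evl]
    rw [e1, ← mul_assoc, ih, mul_q]
    have h2 : decide ((n + 1) % 2 = 1) = !decide (n % 2 = 1) := by
      rcases Nat.mod_two_eq_zero_or_one n with h | h
      · have : (n + 1) % 2 = 1 := by omega
        simp [h, this]
      · have : (n + 1) % 2 = 0 := by omega
        simp [h, this]
    ext <;> cases g.t <;> cases g.s <;> simp [h2] <;> ring

/-- finitely many elements have small counters -/
def Box (K : ℕ) : Set Gam :=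
  {g | g.a.natAbs ≤ K ∧ g.b.natAbs ≤ K ∧ g.c.natAbs ≤ K ∧ g.d.natAbs ≤ K}

theorem box_finite (K : ℕ) : (Box K).Finite := by
  let I : Set ℤ := Set.Icc (-(K : ℤ)) K
  have hI : I.Finite := Set.finite_Icc _ _
  let f : ℤ × ℤ × ℤ × ℤ × Bool × Bool → Gam := fun x =>
    ⟨x.1, x.2.1, x.2.2.1, x.2.2.2.1, x.2.2.2.2.1, x.2.2.2.2.2⟩
  have h1 : (I ×ˢ (I ×ˢ (I ×ˢ (I ×ˢ (Set.univ : Set (Bool × Bool)))))).Finite :=
    hI.prod (hI.prod (hI.prod (hI.prod Set.finite_univ)))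
  apply (h1.image f).subset
  rintro ⟨a, b, c, d, s, t⟩ ⟨h1, h2, h3, h4⟩
  simp only at h1 h2 h3 h4
  refine ⟨(a, b, c, d, s, t), ⟨?_, ?_, ?_, ?_, trivial⟩, rfl⟩ <;>
    · simp only [I, Set.mem_Icc]
      omega

theorem one_mem_box (K : ℕ) : (1 : Gam) ∈ Box K := by simp [Box]

/-- the difference of two elements with close counters -/
theorem diff_mem_box {g h : Gam} {K : ℕ} (h1 : (g.a - h.a).natAbs ≤ K)
    (h2 : (g.b - h.b).natAbs ≤ K) (h3 : (g.c - h.c).natAbs ≤ K) (h4 : (g.d - h.d).natAbs ≤ K) :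
    g⁻¹ * h ∈ Box K := by
  obtain ⟨a, b, c, d, s, t⟩ := g
  obtain ⟨a', b', c', d', s', t'⟩ := h
  unfold Box
  simp only [Gam.inv_def, Gam.mul_def, Set.mem_ofPred_eq] at h1 h2 h3 h4 ⊢
  cases s <;> cases t <;> simp <;> omega

end Pool.Agent.R646.A
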