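import Pool.Agent.R646.A.Def

set_option autoImplicit false
set_option linter.unusedSectionVars false

/-!
# A criterion for not being ShortLex-automatic
-/

namespace Pool.Agent.R646.A

open List

section words

variable {α : Type*}

theorem pad_replicate (P : α) (k : ℕ) (u v : List α) :
    pad (replicate k P ++ u) (replicate k P ++ v) =
      replicate k (some P, some P) ++ pad u v := by
  induction k with
  | zero => rfl
  | succ k ih =>
    rw [replicate_succ, replicate_succ, cons_append, cons_append, pad_cons_cons, ih]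
    rfl

theorem split_first [DecidableEq α] {P Q : α} (hPQ : P ≠ Q) (w : List α)
    (h : ∀ x ∈ w, x = P ∨ x = Q) {k : ℕ} (hk : w.count Q = k + 1) :
    ∃ x w', w = replicate x P ++ Q :: w' ∧ w'.count Q = k ∧ (∀ y ∈ w', y = P ∨ y = Q) := by
  induction w with
  | nil => simp at hk
  | cons a w ih =>
    by_cases ha : a = Q
    · subst ha
      refine ⟨0, w, rfl, ?_, fun y hy => h y (mem_cons_of_mem _ hy)⟩
      rw [count_cons_self] at hk
      omega
    · have haP : a = P := (h a mem_cons_self).resolve_right ha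
      subst haP
      rw [count_cons_of_ne ha] at hk
      obtain ⟨x, w', h1, h2, h3⟩ := ih (fun y hy => h y (mem_cons_of_mem _ hy)) hk
      refine ⟨x + 1, w', ?_, h2, h3⟩
      rw [h1, replicate_succ, cons_append]

theorem split_zero [DecidableEq α] {P Q : α} (w : List α)
    (h : ∀ x ∈ w, x = P ∨ x = Q) (hk : w.count Q = 0) : ∃ x, w = replicate x P := by
  refine ⟨w.length, eq_replicate_of_mem fun b hb => ?_⟩
  rcases h b hb with h1 | h1
  · exact h1
  · subst h1
    exact absurd hb (count_eq_zero.mp hk)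

end words

section criterion

variable {G : Type*} [Group G] {α : Type*} (ι : α → G)

/-- ShortLex language for a generating map -/
def SL (r : LinearOrder α) : Language α :=
  {w | ∀ w' : List α, ev ι w' = ev ι w → w' ≠ w → List.Shortlex r.lt w w'}

/-- The data used to show that an order with `Q < P` is bad. -/
structure Crit (P Q : α) where
  /-- signed length -/
  τ : G → ℤ
  /-- number of `Q` -/
  κ : G → ℤ
  /-- two counters -/
  F : G → ℤ × ℤ
  τ_one : τ 1 = 0
  τ_mul : ∀ g h, τ (g * h) = τ g + τ h
  τ_le : ∀ x : α, τ (ι x) ≤ 1 ∧ (τ (ι x) = 1 → x = P ∨ x = Q)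
  τ_P : τ (ι P) = 1
  τ_Q : τ (ι Q) = 1
  κ_one : κ 1 = 0
  κ_mul : ∀ g h, κ (g * h) = κ g + κ h
  κ_P : κ (ι P) = 0
  κ_Q : κ (ι Q) = 1
  F1 : ∀ x y : ℕ, F (ev ι (replicate x P ++ Q :: replicate y P)) = ((x : ℤ), (y : ℤ))
  F2 : ∀ x y z : ℕ, F (ev ι (replicate x P ++ Q :: (replicate y P ++ Q :: replicate z P))) =
    ((x : ℤ) + (z : ℤ), (y : ℤ))
  rel : ∀ i j : ℕ, ev ι (replicate (2 * i) P ++ Q :: replicate (2 * j) P) * ι Q =
    ev ι (Q :: (replicate (2 * j) P ++ Q :: replicate (2 * i) P))

variable {ι} {P Q : α} (H : Crit ι P Q)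
include H

theorem Crit.ne : P ≠ Q := by
  intro h
  have h1 := H.κ_P
  have h2 := H.κ_Q
  have h3 : ι P = ι Q := by rw [h]
  rw [h3] at h1
  omega

theorem Crit.len (w : List α) : H.τ (ev ι w) ≤ w.length ∧
    (H.τ (ev ι w) = w.length → ∀ x ∈ w, x = P ∨ x = Q) := by
  induction w with
  | nil => simp [H.τ_one]
  | cons a w ih =>
    rw [ev_cons, H.τ_mul]
    obtain ⟨h1, h2⟩ := H.τ_le a
    obtain ⟨h3, h4⟩ := ih
    simp only [length_cons]
    push_cast
    refine ⟨by omega, fun h x hx => ?_⟩
    rcases mem_cons.mp hx with rfl | hx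
    · exact h2 (by omega)
    · exact h4 (by omega) x hx

theorem Crit.τ_pos (w : List α) (h : ∀ x ∈ w, x = P ∨ x = Q) : H.τ (ev ι w) = w.length := by
  induction w with
  | nil => simp [H.τ_one]
  | cons a w ih =>
    rw [ev_cons, H.τ_mul, ih (fun x hx => h x (mem_cons_of_mem _ hx))]
    have : H.τ (ι a) = 1 := by
      rcases h a mem_cons_self with h1 | h1
      · rw [h1]; exact H.τ_P
      · rw [h1]; exact H.τ_Q
    rw [this, length_cons]
    push_cast
    ring

theorem Crit.κ_pos [DecidableEq α] (w : List α) (h : ∀ x ∈ w, x = P ∨ x = Q) :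
    H.κ (ev ι w) = w.count Q := by
  induction w with
  | nil => simp [H.κ_one]
  | cons a w ih =>
    rw [ev_cons, H.κ_mul, ih (fun x hx => h x (mem_cons_of_mem _ hx))]
    rcases h a mem_cons_self with h1 | h1
    · have : a ≠ Q := by rw [h1]; exact H.ne
      rw [count_cons_of_ne this, h1, H.κ_P, zero_add]
    · rw [h1, H.κ_Q, count_cons_self]
      push_cast
      ring

/-- geodesics with the same value as a positive word -/
theorem Crit.same [DecidableEq α] {w w' : List α} (h : ∀ x ∈ w, x = P ∨ x = Q)
    (he : ev ι w' = ev ι w) : w.length ≤ w'.length ∧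
    (w'.length = w.length → (∀ x ∈ w', x = P ∨ x = Q) ∧ w'.count Q = w.count Q) := by
  have h1 := H.τ_pos w h
  obtain ⟨h2, h3⟩ := H.len w'
  rw [he] at h2 h3
  refine ⟨by omega, fun hl => ?_⟩
  have h4 := h3 (by omega)
  refine ⟨h4, ?_⟩
  have h5 := H.κ_pos w h
  have h6 := H.κ_pos w' h4
  rw [he] at h6
  omega

theorem Crit.u_mem (r : LinearOrder α) (i j : ℕ) :
    replicate i P ++ Q :: replicate j P ∈ SL ι r := by
  intro w' he hne
  have hpos : ∀ x ∈ replicate i P ++ Q :: replicate j P, x = P ∨ x = Q := by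
    intro x hx
    simp only [mem_append, mem_replicate, mem_cons] at hx
    tauto
  obtain ⟨h1, h2⟩ := H.same hpos he
  rcases Nat.lt_or_ge (replicate i P ++ Q :: replicate j P).length w'.length with h3 | h3
  · exact Shortlex.of_length_lt h3
  · exfalso
    obtain ⟨h4, h5⟩ := h2 (le_antisymm h3 h1)
    have h6 : (replicate i P ++ Q :: replicate j P).count Q = 0 + 1 := by
      rw [count_append, count_cons_self, count_replicate, count_replicate]
      simp [H.ne]
    rw [h6] at h5
    obtain ⟨x, w1, rfl, h7, h8⟩ := split_first H.ne w' h4 h5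
    obtain ⟨y, rfl⟩ := split_zero w1 h8 h7
    have := congrArg H.F he
    rw [H.F1, H.F1] at this
    simp only [Prod.mk.injEq, Nat.cast_inj] at this
    obtain ⟨rfl, rfl⟩ := this
    exact hne rfl

theorem Crit.v_mem (r : LinearOrder α) (hr : r.lt Q P) (i j : ℕ) :
    Q :: (replicate j P ++ Q :: replicate i P) ∈ SL ι r := by
  intro w' he hne
  have hpos : ∀ x ∈ Q :: (replicate j P ++ Q :: replicate i P), x = P ∨ x = Q := by
    intro x hx
    simp only [mem_append, mem_replicate, mem_cons] at hx
    tauto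
  obtain ⟨h1, h2⟩ := H.same hpos he
  rcases Nat.lt_or_ge (Q :: (replicate j P ++ Q :: replicate i P)).length w'.length with h3 | h3
  · exact Shortlex.of_length_lt h3
  · obtain ⟨h4, h5⟩ := h2 (le_antisymm h3 h1)
    have h6 : (Q :: (replicate j P ++ Q :: replicate i P)).count Q = 1 + 1 := by
      rw [count_cons_self, count_append, count_cons_self, count_replicate, count_replicate]
      simp [H.ne]
    rw [h6] at h5
    obtain ⟨x, w1, rfl, h7, h8⟩ := split_first H.ne w' h4 h5
    obtain ⟨y, w2, rfl, h9, h10⟩ := split_first H.ne w1 h8 (k := 0) h7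
    obtain ⟨z, rfl⟩ := split_zero w2 h10 h9
    have h11 := congrArg H.F he
    have h12 := H.F2 0 j i
    rw [replicate_zero, nil_append] at h12
    rw [H.F2, h12] at h11
    simp only [Prod.mk.injEq, Nat.cast_inj, Nat.cast_zero, zero_add] at h11
    obtain ⟨h13, rfl⟩ := h11
    apply Shortlex.of_lex (le_antisymm h1 h3)
    rcases Nat.eq_zero_or_pos x with rfl | hx
    · exfalso
      apply hne
      have : z = i := by omega
      subst this
      rfl
    · obtain ⟨x', rfl⟩ := Nat.exists_eq_succ_of_ne_zero (by omega : x ≠ 0)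
      rw [replicate_succ, cons_append]
      exact List.Lex.rel hr

/-- an order with `Q < P` is bad -/
theorem Crit.not_aut (r : LinearOrder α) (hr : r.lt Q P) : ¬ Language.IsRegular
    ({z | ∃ u ∈ SL ι r, ∃ v ∈ SL ι r, ev ι u * ι Q = ev ι v ∧ z = pad u v} :
      Language (Option α × Option α)) := by
  intro hQ
  set K : Language (Option α × Option α) := {z | ∃ u ∈ SL ι r,
    ∃ v ∈ SL ι r, ev ι u * ι Q = ev ι v ∧ z = pad u v} with hK
  have hfin := hQ.finite_range_leftQuotient
  have : Finite (Set.range K.leftQuotient) := hfin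
  let φ : ℕ → Set.range K.leftQuotient := fun k =>
    ⟨K.leftQuotient ((some P, some Q) :: replicate k (some P, some P)), ⟨_, rfl⟩⟩
  obtain ⟨k1, k2, hne, heq⟩ := Finite.exists_ne_map_eq_of_infinite φ
  have main : ∀ k1 k2 : ℕ, k1 < k2 → φ k1 = φ k2 → False := by
    intro k1 k2 hlt heq
    have heq' : K.leftQuotient ((some P, some Q) :: replicate k1 (some P, some P)) =
      K.leftQuotient ((some P, some Q) :: replicate k2 (some P, some P)) :=
      congrArg Subtype.val heq
    obtain ⟨m, hm⟩ : ∃ m, m = k2 + 1 := ⟨_, rfl⟩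
    -- the pair
    have mem : ∀ k a : ℕ, pad (P :: (replicate k P ++ (replicate a P ++ Q :: replicate (2 * m) P)))
        (Q :: (replicate k P ++ (replicate (a + 1) P ++ Q :: replicate (2 * m) P))) =
        ((some P, some Q) :: replicate k (some P, some P)) ++
          pad (replicate a P ++ Q :: replicate (2 * m) P)
            (replicate (a + 1) P ++ Q :: replicate (2 * m) P) := by
      intro k a
      rw [pad_cons_cons, pad_replicate]
      rfl
    have e1 : ∀ k a : ℕ, P :: (replicate k P ++ (replicate a P ++ Q :: replicate (2 * m) P)) =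
        replicate (k + a + 1) P ++ Q :: replicate (2 * m) P := by
      intro k a
      rw [replicate_succ, replicate_add, cons_append, append_assoc]
    have e2 : ∀ k a : ℕ, Q :: (replicate k P ++ (replicate (a + 1) P ++
        Q :: replicate (2 * m) P)) = Q :: (replicate (k + (a + 1)) P ++ Q :: replicate (2 * m) P) := by
      intro k a
      rw [replicate_add k (a + 1), append_assoc]
    have h1 : pad (replicate (2 * m - 1 - k1) P ++ Q :: replicate (2 * m) P)
        (replicate (2 * m - 1 - k1 + 1) P ++ Q :: replicate (2 * m) P) ∈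
        K.leftQuotient ((some P, some Q) :: replicate k1 (some P, some P)) := by
      show _ ++ _ ∈ K
      rw [← mem, e1, e2]
      have a1 : k1 + (2 * m - 1 - k1) + 1 = 2 * m := by omega
      have a2 : k1 + (2 * m - 1 - k1 + 1) = 2 * m := by omega
      rw [a1, a2]
      exact ⟨_, H.u_mem r _ _, _, H.v_mem r hr _ _, H.rel m m, rfl⟩
    rw [heq'] at h1
    change _ ++ _ ∈ K at h1
    rw [← mem, e1, e2] at h1
    obtain ⟨u, -, v, -, h2, h3⟩ := h1
    have hu := congrArg (filterMap Prod.fst) h3
    have hv := congrArg (filterMap Prod.snd) h3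
    rw [pad_fst, pad_fst] at hu
    rw [pad_snd, pad_snd] at hv
    rw [← hu, ← hv] at h2
    have h4 := congrArg H.F h2
    have h5 : ev ι (replicate (k2 + (2 * m - 1 - k1) + 1) P ++ Q :: replicate (2 * m) P) * ι Q =
        ev ι (replicate (k2 + (2 * m - 1 - k1) + 1) P ++ Q :: (replicate (2 * m) P ++
          Q :: replicate 0 P)) := by
      simp [ev_append, mul_assoc]
    have h6 := H.F2 0 (k2 + (2 * m - 1 - k1 + 1)) (2 * m)
    rw [replicate_zero, nil_append] at h6
    rw [h5, H.F2, h6] at h4
    simp only [Prod.mk.injEq] at h4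
    omega
  rcases lt_or_gt_of_ne hne with h1 | h1
  · exact main _ _ h1 heq
  · exact main _ _ h1 heq.symm

end criterion

end Pool.Agent.R646.A
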