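import Pool.Agent.R646.A.Ft
import Pool.Agent.R646.A.Neg

set_option autoImplicit false
set_option linter.unusedSectionVars false

/-!
# A weakly geodesically automatic group which is not ShortLex-automatic for any order
-/

namespace Pool.Agent.R646.A

open List

section transfer

variable {G : Type*} [Group G] {α : Type*} {ι : α → G} (hι : Function.Injective ι)

theorem isRegular_comap {α β : Type*} (f : α → β) {L : Language β} (h : L.IsRegular) :
    Language.IsRegular ({w | w.map f ∈ L} : Language α) := by
  obtain ⟨σ, hσ, M, rfl⟩ := h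
  refine ⟨σ, hσ, M.comap f, ?_⟩
  rw [DFA.accepts_comap]
  rfl

/-- the bijection between letters and generators -/
noncomputable def eqv : α ≃ Set.range ι := Equiv.ofInjective ι hι

theorem eqv_val (x : α) : ((eqv hι x : Set.range ι) : G) = ι x := rfl

theorem evalWord_map (w : List α) :
    evalWord (Set.range ι) (w.map (eqv hι)) = ev ι w := by
  unfold evalWord ev
  rw [List.map_map]
  rfl

theorem evalWord_symm (w : List (Set.range ι)) :
    evalWord (Set.range ι) w = ev ι (w.map (eqv hι).symm) := by
  rw [← evalWord_map hι, List.map_map]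
  simp

/-- transfer of languages -/
def trl (L : Language α) : Language (Set.range ι) := {w | w.map (eqv hι).symm ∈ L}

theorem mem_trl {L : Language α} {w : List α} : w.map (eqv hι) ∈ trl hι L ↔ w ∈ L := by
  show (w.map (eqv hι)).map (eqv hι).symm ∈ L ↔ w ∈ L
  rw [List.map_map]
  simp

theorem trl_regular {L : Language α} (h : L.IsRegular) : (trl hι L).IsRegular :=
  isRegular_comap _ h

theorem trl_rel (L : Language α) (x : G) (h : Language.IsRegular
    ({z | ∃ u ∈ L, ∃ v ∈ L, ev ι u * x = ev ι v ∧ z = pad u v} :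
      Language (Option α × Option α))) : Language.IsRegular
    ({z | ∃ u ∈ trl hι L, ∃ v ∈ trl hι L, evalWord (Set.range ι) u * x =
      evalWord (Set.range ι) v ∧ z = pad u v} :
      Language (Option (Set.range ι) × Option (Set.range ι))) := by
  refine reg_congr (fun z => ?_)
    (isRegular_comap (Prod.map (Option.map (eqv hι).symm) (Option.map (eqv hι).symm)) h)
  constructor
  · rintro ⟨u, hu, v, hv, he, rfl⟩
    refine ⟨_, hu, _, hv, ?_, (pad_map _ _ _).symm⟩
    rw [← evalWord_symm, ← evalWord_symm]; exact he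
  · rintro ⟨u, hu, v, hv, he, hz⟩
    refine ⟨u.map (eqv hι), (mem_trl hι).mpr hu, v.map (eqv hι), (mem_trl hι).mpr hv, ?_, ?_⟩
    · rw [evalWord_map, evalWord_map]; exact he
    · have h1 : (pad (u.map (eqv hι)) (v.map (eqv hι))).map
          (Prod.map (Option.map (eqv hι).symm) (Option.map (eqv hι).symm)) = pad u v := by
        rw [← pad_map, List.map_map, List.map_map]
        simp
      rw [← h1] at hz
      refine (List.map_injective_iff.mpr ?_) hz
      exact Function.Injective.prodMap (Option.map_injective (eqv hι).symm.injective)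
        (Option.map_injective (eqv hι).symm.injective)

end transfer

section group

/-- The group generated by `p` and `q`. -/
abbrev GG : Type := Subgroup.closure (Set.range iota)

/-- the letters in the group `GG` -/
def iG (x : Ltr) : GG := ⟨iota x, Subgroup.subset_closure ⟨x, rfl⟩⟩

theorem iG_injective : Function.Injective iG := fun _ _ h => iota_injective (congrArg Subtype.val h)

theorem coe_ev (w : List Ltr) : ((ev iG w : GG) : Gam) = evl w := by
  induction w with
  | nil => rfl
  | cons x w ih =>
    rw [ev_cons, Subgroup.coe_mul, ih]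
    simp [evl, iG]

/-- the generating set -/
abbrev AA : Set GG := Set.range iG

theorem AA_finite : AA.Finite := Set.finite_range _

theorem AA_inv : ∀ a ∈ AA, a⁻¹ ∈ AA := by
  rintro _ ⟨x, rfl⟩
  refine ⟨(x.1, !x.2), ?_⟩
  apply Subtype.ext
  show iota (x.1, !x.2) = (iota x)⁻¹
  rw [iota_inv]

theorem AA_closure : Subgroup.closure AA = ⊤ := by
  rw [eq_top_iff]
  have h := Subgroup.closure_closure_coe_preimage (k := Set.range iota)
  rw [← h]
  apply Subgroup.closure_mono
  rintro ⟨g, hg⟩ ⟨x, hx⟩
  refine ⟨x, Subtype.ext hx⟩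

theorem exists_word (g : GG) : ∃ w : List Ltr, evl w = g := by
  obtain ⟨g, hg⟩ := g
  induction hg using Subgroup.closure_induction with
  | mem x hx =>
    obtain ⟨y, rfl⟩ := hx
    exact ⟨[y], by simp [evl]⟩
  | one => exact ⟨[], rfl⟩
  | mul x y _ _ hx hy =>
    obtain ⟨u, hu⟩ := hx
    obtain ⟨v, hv⟩ := hy
    refine ⟨u ++ v, ?_⟩
    simp only [evl, ev_append] at hu hv ⊢
    rw [hu, hv]
  | inv x _ hx =>
    obtain ⟨u, hu⟩ := hx
    have key : ∀ u : List Ltr, ∃ v : List Ltr, evl v = (evl u)⁻¹ := by
      intro u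
      induction u with
      | nil => exact ⟨[], by simp [evl]⟩
      | cons a u ih =>
        obtain ⟨v, hv⟩ := ih
        refine ⟨v ++ [(a.1, !a.2)], ?_⟩
        simp only [evl, ev_append, ev_cons, ev_nil, mul_one] at hv ⊢
        rw [hv, ← iota_inv, mul_inv_rev]
    obtain ⟨v, hv⟩ := key u
    refine ⟨v, ?_⟩
    rw [hv, hu]

theorem rel_GG (y : GG) (h : Language.IsRegular
    ({z | ∃ u ∈ NF, ∃ v ∈ NF, evl u * y = evl v ∧ z = pad u v} :
      Language (Option Ltr × Option Ltr))) : Language.IsRegular
    ({z | ∃ u ∈ NF, ∃ v ∈ NF, ev iG u * y = ev iG v ∧ z = pad u v} :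
      Language (Option Ltr × Option Ltr)) := by
  refine reg_congr (fun z => ?_) h
  have key : ∀ u v : List Ltr, ev iG u * y = ev iG v ↔ evl u * (y : Gam) = evl v := by
    intro u v
    rw [← coe_ev, ← coe_ev, ← Subgroup.coe_mul]
    exact Subtype.ext_iff
  constructor
  · rintro ⟨u, hu, v, hv, he, rfl⟩
    exact ⟨u, hu, v, hv, (key u v).mp he, rfl⟩
  · rintro ⟨u, hu, v, hv, he, rfl⟩
    exact ⟨u, hu, v, hv, (key u v).mpr he, rfl⟩

/-- **The group is weakly geodesically automatic.** -/
theorem wga : WeaklyGeodesicallyAutomatic AA := by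
  refine ⟨trl iG_injective NF, ⟨trl_regular _ NF_regular, ?_, ?_⟩, ?_⟩
  · intro g
    obtain ⟨w, hw⟩ := exists_word g
    obtain ⟨w', hw', he⟩ := exists_wd (par_ev w)
    refine ⟨w'.map (eqv iG_injective), (mem_trl _).mpr hw', ?_⟩
    rw [evalWord_map]
    apply Subtype.ext
    rw [coe_ev, he, hw]
  · intro x hx
    apply trl_rel
    rcases hx with ⟨y, rfl⟩ | rfl
    · exact rel_GG _ (NF_rel y)
    · exact rel_GG _ NF_rel_one
  · intro w hw w' he
    have h1 : ∀ w : List AA, ((evalWord AA w : GG) : Gam) = evl (w.map (eqv iG_injective).symm) := by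
      intro w
      rw [evalWord_symm iG_injective, coe_ev]
    obtain ⟨x, hx, e, A, B, C, D, hs, hw⟩ := hw
    have h2 := congrArg (Subtype.val : GG → Gam) he
    rw [h1, h1, hw] at h2
    have h3 := geod_wd hx hs _ h2
    rw [← hw, List.length_map, List.length_map] at h3
    exact h3

/-- total signed length -/
def tau (g : GG) : ℤ := (g : Gam).a + (g : Gam).b + (g : Gam).c + (g : Gam).d

theorem tau_mul (g h : GG) : tau (g * h) = tau g + tau h := by
  unfold tau
  rw [Subgroup.coe_mul, Gam.mul_a, Gam.mul_b, Gam.mul_c, Gam.mul_d]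
  cases (g : Gam).s <;> cases (g : Gam).t <;> simp <;> ring

theorem tau_iG (x : Ltr) : tau (iG x) = sg x.2 := by
  obtain ⟨x1, x2⟩ := x
  cases x1 <;> cases x2 <;> simp [tau, iG, iota, sg]

theorem ev_rep_p (n : ℕ) : evl (replicate n (false, false)) =
    ⟨n, 0, 0, 0, decide (n % 2 = 1), false⟩ := by
  have := mul_ev_p 1 false n
  rw [one_mul] at this
  rw [this]
  ext <;> simp [sg]

theorem ev_rep_q (n : ℕ) : evl (replicate n (true, false)) =
    ⟨0, 0, 0, n, false, decide (n % 2 = 1)⟩ := by
  have := mul_ev_q 1 false n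
  rw [one_mul] at this
  rw [this]
  ext <;> simp [sg]

theorem dec_even (i : ℕ) : decide (2 * i % 2 = 1) = false := by simp

/-- data for the orders with `q < p` -/
def critQ : Crit (fun x : Ltr => iG x) (false, false) (true, false) where
  τ := tau
  κ := fun g => (g : Gam).b + (g : Gam).d
  F := fun g => ((g : Gam).a, (g : Gam).c)
  τ_one := rfl
  τ_mul := tau_mul
  τ_le := by
    intro x
    rw [tau_iG]
    obtain ⟨x1, x2⟩ := x
    cases x1 <;> cases x2 <;> simp [sg]
  τ_P := rfl
  τ_Q := rfl
  κ_one := rfl
  κ_mul := by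
    intro g h
    rw [Subgroup.coe_mul, Gam.mul_b, Gam.mul_d]
    cases (g : Gam).s <;> simp <;> ring
  κ_P := rfl
  κ_Q := rfl
  F1 := by
    intro x y
    rw [coe_ev]
    simp only [evl, ev_append, ev_cons]
    rw [show ev iota (replicate x (false, false)) = _ from ev_rep_p x,
      show ev iota (replicate y (false, false)) = _ from ev_rep_p y]
    simp [Gam.mul_def, iota]
  F2 := by
    intro x y z
    rw [coe_ev]
    simp only [evl, ev_append, ev_cons]
    rw [show ev iota (replicate x (false, false)) = _ from ev_rep_p x,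
      show ev iota (replicate y (false, false)) = _ from ev_rep_p y,
      show ev iota (replicate z (false, false)) = _ from ev_rep_p z]
    simp [Gam.mul_def, iota]
  rel := by
    intro i j
    apply Subtype.ext
    rw [Subgroup.coe_mul, coe_ev, coe_ev]
    simp only [evl, ev_append, ev_cons]
    rw [show ev iota (replicate (2 * i) (false, false)) = _ from ev_rep_p (2 * i),
      show ev iota (replicate (2 * j) (false, false)) = _ from ev_rep_p (2 * j), dec_even, dec_even]
    ext <;> simp [Gam.mul_def, iota, iG, sg]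

/-- data for the orders with `p < q` -/
def critP : Crit (fun x : Ltr => iG x) (true, false) (false, false) where
  τ := tau
  κ := fun g => (g : Gam).a + (g : Gam).c
  F := fun g => ((g : Gam).d, (g : Gam).b)
  τ_one := rfl
  τ_mul := tau_mul
  τ_le := by
    intro x
    rw [tau_iG]
    obtain ⟨x1, x2⟩ := x
    cases x1 <;> cases x2 <;> simp [sg]
  τ_P := rfl
  τ_Q := rfl
  κ_one := rfl
  κ_mul := by
    intro g h
    rw [Subgroup.coe_mul, Gam.mul_a, Gam.mul_c]
    cases (g : Gam).t <;> simp <;> ring
  κ_P := rfl
  κ_Q := rfl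
  F1 := by
    intro x y
    rw [coe_ev]
    simp only [evl, ev_append, ev_cons]
    rw [show ev iota (replicate x (true, false)) = _ from ev_rep_q x,
      show ev iota (replicate y (true, false)) = _ from ev_rep_q y]
    simp [Gam.mul_def, iota]
  F2 := by
    intro x y z
    rw [coe_ev]
    simp only [evl, ev_append, ev_cons]
    rw [show ev iota (replicate x (true, false)) = _ from ev_rep_q x,
      show ev iota (replicate y (true, false)) = _ from ev_rep_q y,
      show ev iota (replicate z (true, false)) = _ from ev_rep_q z]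
    simp [Gam.mul_def, iota]
  rel := by
    intro i j
    apply Subtype.ext
    rw [Subgroup.coe_mul, coe_ev, coe_ev]
    simp only [evl, ev_append, ev_cons]
    rw [show ev iota (replicate (2 * i) (true, false)) = _ from ev_rep_q (2 * i),
      show ev iota (replicate (2 * j) (true, false)) = _ from ev_rep_q (2 * j), dec_even, dec_even]
    ext <;> simp [Gam.mul_def, iota, iG, sg]

/-- transport of the data -/
def Crit.map {G : Type*} [Group G] {α β : Type*} {ι : α → G} {ι' : β → G} (e : α ≃ β)
    (he : ∀ x, ι' (e x) = ι x) {P Q : α} (H : Crit ι P Q) : Crit ι' (e P) (e Q) where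
  τ := H.τ
  κ := H.κ
  F := H.F
  τ_one := H.τ_one
  τ_mul := H.τ_mul
  τ_le := by
    intro x
    obtain ⟨y, rfl⟩ := e.surjective x
    rw [he]
    obtain ⟨h1, h2⟩ := H.τ_le y
    refine ⟨h1, fun h => ?_⟩
    rcases h2 h with rfl | rfl
    · exact Or.inl rfl
    · exact Or.inr rfl
  τ_P := by rw [he]; exact H.τ_P
  τ_Q := by rw [he]; exact H.τ_Q
  κ_one := H.κ_one
  κ_mul := H.κ_mul
  κ_P := by rw [he]; exact H.κ_P
  κ_Q := by rw [he]; exact H.κ_Q
  F1 := by
    intro x y
    rw [← H.F1 x y]
    congr 1
    simp [ev, he, Function.comp_def]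
  F2 := by
    intro x y z
    rw [← H.F2 x y z]
    congr 1
    simp [ev, he, Function.comp_def]
  rel := by
    intro i j
    have := H.rel i j
    simpa [ev, he, Function.comp_def] using this

theorem not_shortlex (r : LinearOrder AA) : ¬ ShortLexAutomatic AA r := by
  rintro ⟨-, -, h⟩
  let e := eqv iG_injective
  let P : AA := e (false, false)
  let Q : AA := e (true, false)
  have hne : P ≠ Q := by
    intro h0
    have := e.injective h0
    simp at this
  rcases lt_or_gt_of_ne hne with h1 | h1
  · exact (Crit.map e (fun _ => rfl) critP : Crit (Subtype.val : AA → GG) Q P).not_aut r h1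
      (h P (Or.inl P.2))
  · exact (Crit.map e (fun _ => rfl) critQ : Crit (Subtype.val : AA → GG) P Q).not_aut r h1
      (h Q (Or.inl Q.2))

end group

end Pool.Agent.R646.A
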