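import Pool.Agent.R646.A.Tab

set_option autoImplicit false
set_option linter.unusedSectionVars false

/-!
# Normal forms: evaluation, length and fellow travelling
-/

namespace Pool.Agent.R646.A

/-- entries of the table -/
abbrev Ent : Type := Pat × List Bool × List Bool × List Bool

/-- a normal form -/
def wd (x : Ent) (e : Sgn) (A B C D : ℕ) : List Ltr :=
  List.replicate (2 * A) (false, e.1) ++ (List.replicate (2 * D) (true, e.2.2.2) ++
    (c1 x e ++ (List.replicate (2 * B) (true, e.2.1) ++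
      (c2 x e ++ (List.replicate (2 * C) (false, e.2.2.1) ++ c3 x e)))))

/-- the side conditions -/
def side (x : Ent) (A B C D : ℕ) : Prop :=
  (x.1.1 = 0 → A = 0) ∧ (x.1.2.1 = 0 → B = 0) ∧ (x.1.2.2.1 = 0 → C = 0) ∧ (x.1.2.2.2 = 0 → D = 0)

/-- the language of normal forms -/
def NF : Language Ltr :=
  {w | ∃ x ∈ table, ∃ e : Sgn, ∃ A B C D : ℕ, side x A B C D ∧ w = wd x e A B C D}

/-- translations -/
def tr (x y z w : ℤ) : Gam := ⟨x, y, z, w, false, false⟩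

theorem tr_mul (x y z w : ℤ) (g : Gam) :
    tr x y z w * g = ⟨x + g.a, y + g.b, z + g.c, w + g.d, g.s, g.t⟩ := by
  ext <;> simp [tr, Gam.mul_def]

theorem odd_two (n : ℕ) : decide (2 * n % 2 = 1) = false := by
  simp

theorem rep_p_f {g : Gam} (e : Bool) (n : ℕ) (ht : g.t = false) :
    g * evl (List.replicate (2 * n) (false, e)) = tr (2 * n * sg e) 0 0 0 * g := by
  rw [mul_ev_p, tr_mul, ht, odd_two]
  ext <;> simp [ht]
  ring

theorem rep_p_t {g : Gam} (e : Bool) (n : ℕ) (ht : n ≠ 0 → g.t = true) :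
    g * evl (List.replicate (2 * n) (false, e)) = tr 0 0 (2 * n * sg e) 0 * g := by
  by_cases hn : n = 0
  · subst hn
    rw [tr_mul]
    ext <;> simp [evl]
  · have ht := ht hn
    rw [mul_ev_p, tr_mul, ht, odd_two]
    ext <;> simp [ht]
    ring

theorem rep_q_f {g : Gam} (e : Bool) (n : ℕ) (hs : g.s = false) :
    g * evl (List.replicate (2 * n) (true, e)) = tr 0 0 0 (2 * n * sg e) * g := by
  rw [mul_ev_q, tr_mul, hs, odd_two]
  ext <;> simp [hs]
  ring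

theorem rep_q_t {g : Gam} (e : Bool) (n : ℕ) (hs : n ≠ 0 → g.s = true) :
    g * evl (List.replicate (2 * n) (true, e)) = tr 0 (2 * n * sg e) 0 0 * g := by
  by_cases hn : n = 0
  · subst hn
    rw [tr_mul]
    ext <;> simp [evl]
  · have hs := hs hn
    rw [mul_ev_q, tr_mul, hs, odd_two]
    ext <;> simp [hs]
    ring

section forms

variable {x : Ent} {e : Sgn} {A B C D : ℕ}

theorem form1 (e : Sgn) (A : ℕ) : evl (List.replicate (2 * A) (false, e.1)) =
    tr (2 * A * sg e.1) 0 0 0 := by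
  have := rep_p_f (g := 1) e.1 A rfl
  rwa [one_mul, mul_one] at this

theorem form2 (e : Sgn) (A D : ℕ) : evl (List.replicate (2 * A) (false, e.1)) *
    evl (List.replicate (2 * D) (true, e.2.2.2)) =
    tr (2 * A * sg e.1) 0 0 (2 * D * sg e.2.2.2) := by
  rw [form1, rep_q_f _ _ rfl, tr_mul]
  ext <;> simp [tr]

theorem form3 (e : Sgn) (A D : ℕ) (u : List Ltr) (B : ℕ) (h : B ≠ 0 → (evl u).s = true) :
    tr (2 * A * sg e.1) 0 0 (2 * D * sg e.2.2.2) * evl u *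
      evl (List.replicate (2 * B) (true, e.2.1)) =
    tr (2 * A * sg e.1) (2 * B * sg e.2.1) 0 (2 * D * sg e.2.2.2) * evl u := by
  rw [rep_q_t]
  · rw [← mul_assoc, tr_mul _ _ _ _ (tr _ _ _ _)]
    congr 1
    ext <;> simp [tr]
  · intro h0
    rw [tr_mul]
    exact h h0

theorem form4 (e : Sgn) (A B D : ℕ) (u : List Ltr) (C : ℕ) (h : C ≠ 0 → (evl u).t = true) :
    tr (2 * A * sg e.1) (2 * B * sg e.2.1) 0 (2 * D * sg e.2.2.2) * evl u *
      evl (List.replicate (2 * C) (false, e.2.2.1)) =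
    tr (2 * A * sg e.1) (2 * B * sg e.2.1) (2 * C * sg e.2.2.1) (2 * D * sg e.2.2.2) * evl u := by
  rw [rep_p_t]
  · rw [← mul_assoc, tr_mul _ _ _ _ (tr _ _ _ _)]
    congr 1
    ext <;> simp [tr]
  · intro h0
    rw [tr_mul]
    exact h h0

theorem ev_wd (hx : x ∈ table) (hs : side x A B C D) :
    evl (wd x e A B C D) = ⟨sg e.1 * (x.1.1 + 2 * A), sg e.2.1 * (x.1.2.1 + 2 * B),
      sg e.2.2.1 * (x.1.2.2.1 + 2 * C), sg e.2.2.2 * (x.1.2.2.2 + 2 * D),
      decide ((x.1.1 + x.1.2.2.1) % 2 = 1), decide ((x.1.2.1 + x.1.2.2.2) % 2 = 1)⟩ := by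
  obtain ⟨h1, -, h2, h3, -⟩ := table_ok x hx e
  obtain ⟨-, sB, sC, -⟩ := hs
  have e1 : evl (wd x e A B C D) = evl (List.replicate (2 * A) (false, e.1)) *
    evl (List.replicate (2 * D) (true, e.2.2.2)) * evl (c1 x e) *
    evl (List.replicate (2 * B) (true, e.2.1)) * evl (c2 x e) *
    evl (List.replicate (2 * C) (false, e.2.2.1)) * evl (c3 x e) := by
    simp only [wd, evl, ev_append, mul_assoc]
  have e2 : ∀ (T : Gam), T * evl (c1 x e) * evl (c2 x e) = T * evl (c1 x e ++ c2 x e) := by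
    intro T; simp only [evl, ev_append, mul_assoc]
  have e3 : ∀ (T : Gam), T * evl (c1 x e ++ c2 x e) * evl (c3 x e) =
      T * evl (c1 x e ++ (c2 x e ++ c3 x e)) := by
    intro T; simp only [evl, ev_append, mul_assoc]
  rw [e1, form2, form3 _ _ _ _ _ (fun h => h2 (fun h0 => h (sB h0))), e2,
    form4 _ _ _ _ _ _ (fun h => h3 (fun h0 => h (sC h0))), e3, h1, tr_mul]
  ext <;> simp <;> ring

theorem length_wd (hx : x ∈ table) : (wd x e A B C D).length =
    (x.1.1 + 2 * A) + (x.1.2.1 + 2 * B) + (x.1.2.2.1 + 2 * C) + (x.1.2.2.2 + 2 * D) +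
    (if Bad x.1.1 x.1.2.1 x.1.2.2.1 x.1.2.2.2 then 2 else 0) := by
  obtain ⟨-, h1, -⟩ := table_ok x hx e
  simp only [List.length_append] at h1
  simp only [wd, List.length_append, List.length_replicate]
  omega

theorem sg_natAbs (s : Bool) (n : ℤ) : (sg s * n).natAbs = n.natAbs := by
  cases s <;> simp [sg]

theorem sg_zero (s : Bool) (n : ℤ) : sg s * n = 0 ↔ n = 0 := by
  cases s <;> simp [sg]

/-- normal forms are geodesic -/
theorem geod_wd (hx : x ∈ table) (hs : side x A B C D) (w : List Ltr)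
    (hw : evl w = evl (wd x e A B C D)) : (wd x e A B C D).length ≤ w.length := by
  have h1 := length_ge w
  rw [hw, ev_wd hx hs] at h1
  rw [length_wd hx]
  simp only [sg_natAbs] at h1
  obtain ⟨sA, sB, sC, sD⟩ := hs
  have hb : Bad (sg e.1 * (x.1.1 + 2 * A)) (sg e.2.1 * (x.1.2.1 + 2 * B))
      (sg e.2.2.1 * (x.1.2.2.1 + 2 * C)) (sg e.2.2.2 * (x.1.2.2.2 + 2 * D)) ↔
      Bad x.1.1 x.1.2.1 x.1.2.2.1 x.1.2.2.2 := by
    have z : ∀ (s : Bool) (m n : ℕ), (m = 0 → n = 0) → (sg s * ((m : ℤ) + 2 * n) = 0 ↔ (m : ℤ) = 0) := by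
      intro s m n h
      rw [sg_zero]
      constructor
      · intro h0; omega
      · intro h0
        have : m = 0 := by exact_mod_cast h0
        have := h this
        subst this
        simp [h0]
    unfold Bad
    rw [z _ _ _ sA, Ne, z _ _ _ sB, Ne, z _ _ _ sC, z _ _ _ sD]
  simp only [hb] at h1
  split_ifs at h1 ⊢ <;> omega

end forms

theorem par_nat {a b c d : ℤ} {a' b' c' d' : ℕ} (ha : (a' : ℤ) % 2 = a % 2)
    (hb : (b' : ℤ) % 2 = b % 2) (hc : (c' : ℤ) % 2 = c % 2) (hd : (d' : ℤ) % 2 = d % 2) :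
    ((a' + d') % 2 = 1 ↔ (a + d) % 2 = 1) ∧ ((a' + c') % 2 = 1 ↔ (a + c) % 2 = 1) ∧
    ((b' + d') % 2 = 1 ↔ (b + d) % 2 = 1) := by
  refine ⟨?_, ?_, ?_⟩
  · clear hb hc; omega
  · clear hb hd; omega
  · clear ha hc; omega

/-- truncation -/
def trf (n : ℤ) : ℕ := if n.natAbs ≤ 2 then n.natAbs else 2 - n.natAbs % 2
/-- half of the rest -/
def trk (n : ℤ) : ℕ := (n.natAbs - trf n) / 2

theorem tr_spec (n : ℤ) : trf n < 3 ∧ (trf n : ℤ) + 2 * trk n = n.natAbs ∧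
    (trf n = 0 → trk n = 0) ∧ (trf n : ℤ) % 2 = n % 2 := by
  unfold trk trf
  split_ifs with h
  · refine ⟨by omega, by omega, by omega, by omega⟩
  · refine ⟨by omega, by omega, by omega, by omega⟩

theorem sg_abs (n : ℤ) : sg (decide (n < 0)) * n.natAbs = n := by
  by_cases h : n < 0
  · rw [decide_eq_true h]
    show (-1 : ℤ) * n.natAbs = n
    omega
  · rw [decide_eq_false h]
    show (1 : ℤ) * n.natAbs = n
    omega

theorem exists_wd {g : Gam} (hg : Par g) : ∃ w ∈ NF, evl w = g := by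
  obtain ⟨a, b, c, d, s, t⟩ := g
  obtain ⟨p1, p2, p3⟩ := hg
  simp only at p1 p2 p3
  obtain ⟨a1, a2, a3, a4⟩ := tr_spec a
  obtain ⟨b1, b2, b3, b4⟩ := tr_spec b
  obtain ⟨c1, c2, c3, c4⟩ := tr_spec c
  obtain ⟨d1, d2, d3, d4⟩ := tr_spec d
  obtain ⟨q1, q2, q3⟩ := par_nat a4 b4 c4 d4
  have hp : (trf a + trf d) % 2 = 1 ↔
      ((trf a + trf c) % 2 = 1 ∨ (trf b + trf d) % 2 = 1) := by
    rw [q1, q2, q3]; exact p1
  obtain ⟨x, hx, hx'⟩ := table_complete (trf a) (List.mem_range.mpr a1) (trf b)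
    (List.mem_range.mpr b1) (trf c) (List.mem_range.mpr c1) (trf d) (List.mem_range.mpr d1) hp
  have hs : side x (trk a) (trk b) (trk c) (trk d) := by
    unfold side
    rw [hx']
    exact ⟨a3, b3, c3, d3⟩
  have e := ev_wd (e := (decide (a < 0), decide (b < 0), decide (c < 0), decide (d < 0))) hx hs
  refine ⟨_, ⟨x, hx, _, _, _, _, _, hs, rfl⟩, e.trans ?_⟩
  rw [hx']
  simp only
  rw [a2, b2, c2, d2, sg_abs, sg_abs, sg_abs, sg_abs]
  ext
  · rfl
  · rfl
  · rfl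
  · rfl
  · simp only
    rw [Bool.eq_iff_iff, p2, decide_eq_true_iff, q2]
  · simp only
    rw [Bool.eq_iff_iff, p3, decide_eq_true_iff, q3]

theorem reg_congr {α : Type*} {L1 L2 : Language α} (h : ∀ w, w ∈ L1 ↔ w ∈ L2)
    (h2 : L2.IsRegular) : L1.IsRegular := by
  have : L1 = L2 := Set.ext h
  rwa [this]

/-- regularity -/
theorem regBulk (y : Ltr) (P : Prop) :
    Language.IsRegular ({w | ∃ k : ℕ, (P → k = 0) ∧ w = List.replicate (2 * k) y} :
      Language Ltr) := by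
  by_cases hP : P
  · have : ({w | ∃ k : ℕ, (P → k = 0) ∧ w = List.replicate (2 * k) y} : Set (List Ltr)) =
        {w | w = []} := by
      apply Set.ext
      intro w
      constructor
      · rintro ⟨k, hk, rfl⟩
        have := hk hP
        subst this
        rfl
      · rintro rfl
        exact ⟨0, fun _ => rfl, rfl⟩
    rw [this]
    exact regSingle []
  · have : ({w | ∃ k : ℕ, (P → k = 0) ∧ w = List.replicate (2 * k) y} : Set (List Ltr)) =
        {w | ∃ k : ℕ, w = List.replicate (2 * k) y} := by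
      apply Set.ext
      intro w
      constructor
      · rintro ⟨k, -, rfl⟩
        exact ⟨k, rfl⟩
      · rintro ⟨k, rfl⟩
        exact ⟨k, fun h => absurd h hP, rfl⟩
    rw [this]
    exact regEven y

theorem NF_regular : NF.IsRegular := by
  have key : ∀ i : {x // x ∈ table} × Sgn, Language.IsRegular
      ({w | ∃ A B C D : ℕ, side i.1.1 A B C D ∧ w = wd i.1.1 i.2 A B C D} : Language Ltr) := by
    intro i
    have h1 := regMul (regBulk (false, i.2.1) (i.1.1.1.1 = 0)) <|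
      regMul (regBulk (true, i.2.2.2.2) (i.1.1.1.2.2.2 = 0)) <|
      regMul (regSingle (c1 i.1.1 i.2)) <|
      regMul (regBulk (true, i.2.2.1) (i.1.1.1.2.1 = 0)) <|
      regMul (regSingle (c2 i.1.1 i.2)) <|
      regMul (regBulk (false, i.2.2.2.1) (i.1.1.1.2.2.1 = 0)) (regSingle (c3 i.1.1 i.2))
    refine reg_congr (fun w => ?_) h1
    constructor
    · rintro ⟨A, B, C, D, ⟨sA, sB, sC, sD⟩, rfl⟩
      exact ⟨_, ⟨A, sA, rfl⟩, _, ⟨_, ⟨D, sD, rfl⟩, _, ⟨_, rfl, _, ⟨_, ⟨B, sB, rfl⟩, _,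
        ⟨_, rfl, _, ⟨_, ⟨C, sC, rfl⟩, _, rfl, rfl⟩, rfl⟩, rfl⟩, rfl⟩, rfl⟩, rfl⟩
    · rintro ⟨_, ⟨A, sA, rfl⟩, _, ⟨_, ⟨D, sD, rfl⟩, _, ⟨_, rfl, _, ⟨_, ⟨B, sB, rfl⟩, _,
        ⟨_, rfl, _, ⟨_, ⟨C, sC, rfl⟩, _, rfl, rfl⟩, rfl⟩, rfl⟩, rfl⟩, rfl⟩, rfl⟩
      exact ⟨A, B, C, D, ⟨sA, sB, sC, sD⟩, rfl⟩
  have h2 := regUnion key
  refine reg_congr (fun w => ?_) h2
  constructor
  · rintro ⟨x, hx, e, A, B, C, D, hs, rfl⟩
    exact ⟨(⟨x, hx⟩, e), A, B, C, D, hs, rfl⟩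
  · rintro ⟨⟨⟨x, hx⟩, e⟩, A, B, C, D, hs, rfl⟩
    exact ⟨x, hx, e, A, B, C, D, hs, rfl⟩

end Pool.Agent.R646.A
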