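import Mathlib

set_option autoImplicit false
set_option linter.unusedSectionVars false

/-!
# Regular languages and synchronous two-tape automata
-/

namespace Pool.Agent.R646.A

open Language

section closure

variable {α : Type*}

theorem isRegular_of_lq {L : Language α} (S : Set (Language α)) (hS : S.Finite)
    (h : ∀ z, L.leftQuotient z ∈ S) : L.IsRegular := by
  apply IsRegular.of_finite_range_leftQuotient
  apply hS.subset
  rintro _ ⟨z, rfl⟩
  exact h z

/-- concatenation of regular languages -/
theorem regMul {L1 L2 : Language α} (h1 : L1.IsRegular) (h2 : L2.IsRegular) :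
    Language.IsRegular ({w | ∃ u ∈ L1, ∃ v ∈ L2, u ++ v = w} : Language α) := by
  have f1 := h1.finite_range_leftQuotient
  have f2 := h2.finite_range_leftQuotient
  let F : Language α × Set (Language α) → Language α := fun p =>
    ({w | ∃ u ∈ p.1, ∃ v ∈ L2, u ++ v = w} ∪ {w | ∃ K ∈ p.2, w ∈ K} : Set (List α))
  apply isRegular_of_lq (F '' ((Set.range L1.leftQuotient) ×ˢ (𝒫 (Set.range L2.leftQuotient))))
    ((f1.prod f2.finite_subsets).image F)
  intro z
  refine ⟨(L1.leftQuotient z, {K | ∃ z1 z2, z1 ∈ L1 ∧ z1 ++ z2 = z ∧ K = L2.leftQuotient z2}),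
    ⟨⟨z, rfl⟩, ?_⟩, ?_⟩
  · rintro K ⟨z1, z2, -, -, rfl⟩
    exact ⟨z2, rfl⟩
  · apply Set.ext
    intro y
    constructor
    · rintro (⟨u, hu, v, hv, rfl⟩ | ⟨K, ⟨z1, z2, hz1, rfl, rfl⟩, hy⟩)
      · refine ⟨z ++ u, hu, v, hv, ?_⟩
        rw [List.append_assoc]
      · refine ⟨z1, hz1, z2 ++ y, hy, ?_⟩
        rw [List.append_assoc]
    · rintro ⟨u, hu, v, hv, e⟩
      rcases List.append_eq_append_iff.mp e with ⟨a, rfl, rfl⟩ | ⟨a, rfl, rfl⟩
      · right
        exact ⟨L2.leftQuotient a, ⟨u, a, hu, rfl, rfl⟩, hv⟩
      · left
        exact ⟨a, hu, v, hv, rfl⟩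

/-- finite unions of regular languages -/
theorem regUnion {I : Type*} [Finite I] {L : I → Language α} (h : ∀ i, (L i).IsRegular) :
    Language.IsRegular ({w | ∃ i, w ∈ L i} : Language α) := by
  let F : (I → Language α) → Language α := fun K => ({w | ∃ i, w ∈ K i} : Set (List α))
  apply isRegular_of_lq (F '' (Set.pi Set.univ fun i => Set.range (L i).leftQuotient))
    ((Set.Finite.pi' fun i => (h i).finite_range_leftQuotient).subset ?_ |>.image F)
  · intro z
    exact ⟨fun i => (L i).leftQuotient z, fun i _ => ⟨z, rfl⟩, rfl⟩
  · intro K hK i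
    exact hK i trivial

/-- one word -/
theorem regSingle (u : List α) : Language.IsRegular ({w | w = u} : Language α) := by
  apply isRegular_of_lq (insert (∅ : Set (List α)) ((fun n => ({w | w = u.drop n} : Set (List α))) ''
    Set.Iic u.length)) (((Set.finite_Iic _).image _).insert _)
  intro z
  by_cases hz : z <+: u
  · obtain ⟨y, rfl⟩ := hz
    right
    refine ⟨z.length, ?_, ?_⟩
    · simp
    · apply Set.ext
      intro w
      show w = (z ++ y).drop z.length ↔ z ++ w = z ++ y
      rw [List.drop_left]
      exact (List.append_right_inj z).symm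
  · left
    apply Set.eq_empty_iff_forall_notMem.mpr
    intro w hw
    exact hz ⟨w, hw⟩

theorem replicate_append_replicate_eq {x : α} {m n : ℕ} {y z : List α}
    (h : z ++ y = List.replicate n x) (hz : z = List.replicate m x) :
    y = List.replicate (n - m) x ∧ m ≤ n := by
  subst hz
  have hl := congrArg List.length h
  simp only [List.length_append, List.length_replicate] at hl
  constructor
  · have : y = (List.replicate n x).drop m := by
      rw [← h, List.drop_left' (by simp)]
    rw [this, List.drop_replicate]
  · omega

/-- even powers of one letter -/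
theorem regEven (x : α) :
    Language.IsRegular ({w | ∃ k : ℕ, w = List.replicate (2 * k) x} : Language α) := by
  let E : Set (List α) := {w | ∃ k : ℕ, w = List.replicate (2 * k) x}
  let O : Set (List α) := {w | ∃ k : ℕ, w = List.replicate (2 * k + 1) x}
  apply isRegular_of_lq (insert (∅ : Set (List α)) (insert E {O}))
    (((Set.finite_singleton _).insert _).insert _)
  intro z
  by_cases hz : ∃ m, z = List.replicate m x
  · obtain ⟨m, rfl⟩ := hz
    rcases Nat.even_or_odd' m with ⟨m', rfl | rfl⟩
    · right; left
      apply Set.ext
      intro w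
      constructor
      · rintro ⟨k, hk⟩
        obtain ⟨h1, h2⟩ := replicate_append_replicate_eq hk rfl
        refine ⟨k - m', ?_⟩
        rw [h1]; congr 1; omega
      · rintro ⟨k, rfl⟩
        refine ⟨m' + k, ?_⟩
        rw [← List.replicate_add]; congr 1; ring
    · right; right
      apply Set.ext
      intro w
      constructor
      · rintro ⟨k, hk⟩
        obtain ⟨h1, h2⟩ := replicate_append_replicate_eq hk rfl
        refine ⟨k - m' - 1, ?_⟩
        rw [h1]; congr 1; omega
      · rintro ⟨k, rfl⟩
        refine ⟨m' + k + 1, ?_⟩
        rw [← List.replicate_add]; congr 1; ring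
  · left
    apply Set.eq_empty_iff_forall_notMem.mpr
    rintro w ⟨k, hk⟩
    apply hz
    refine ⟨z.length, ?_⟩
    have h1 : ∀ b ∈ z, b = x := by
      intro b hb
      have : b ∈ List.replicate (2 * k) x := by rw [← hk]; exact List.mem_append_left _ hb
      exact List.eq_of_mem_replicate this
    exact List.eq_replicate_of_mem h1

end closure

section pad

variable {α : Type*}

/-- the padded pair of words -/
def pad (u v : List α) : List (Option α × Option α) :=
  (List.range (max u.length v.length)).map fun i => (u[i]?, v[i]?)

theorem pad_nil_nil : pad ([] : List α) [] = [] := by simp [pad]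

theorem pad_cons_cons (x y : α) (u v : List α) :
    pad (x :: u) (y :: v) = (some x, some y) :: pad u v := by
  unfold pad
  have : max (x :: u).length (y :: v).length = max u.length v.length + 1 := by
    simp only [List.length_cons]; omega
  rw [this, List.range_succ_eq_map, List.map_cons, List.map_map]
  simp [Function.comp_def]

theorem pad_cons_nil (x : α) (u : List α) :
    pad (x :: u) [] = (some x, none) :: pad u [] := by
  unfold pad
  have : max (x :: u).length ([] : List α).length = max u.length ([] : List α).length + 1 := by
    simp only [List.length_cons, List.length_nil]; omega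
  rw [this, List.range_succ_eq_map, List.map_cons, List.map_map]
  simp [Function.comp_def]

theorem pad_nil_cons (y : α) (v : List α) :
    pad [] (y :: v) = (none, some y) :: pad [] v := by
  unfold pad
  have : max ([] : List α).length (y :: v).length = max ([] : List α).length v.length + 1 := by
    simp only [List.length_cons, List.length_nil]; omega
  rw [this, List.range_succ_eq_map, List.map_cons, List.map_map]
  simp [Function.comp_def]

theorem pad_fst (u v : List α) : (pad u v).filterMap Prod.fst = u := by
  induction u generalizing v with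
  | nil =>
    induction v with
    | nil => simp [pad_nil_nil]
    | cons y v ih => rw [pad_nil_cons]; simpa using ih
  | cons x u ih =>
    cases v with
    | nil => rw [pad_cons_nil]; simpa using ih []
    | cons y v => rw [pad_cons_cons]; simpa using ih v

theorem pad_snd (u v : List α) : (pad u v).filterMap Prod.snd = v := by
  induction u generalizing v with
  | nil =>
    induction v with
    | nil => simp [pad_nil_nil]
    | cons y v ih => rw [pad_nil_cons]; simpa using ih
  | cons x u ih =>
    cases v with
    | nil => rw [pad_cons_nil]; simpa using ih []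
    | cons y v => rw [pad_cons_cons]; simpa using ih v

theorem pad_map {β : Type*} (e : α → β) (u v : List α) :
    pad (u.map e) (v.map e) = (pad u v).map (Prod.map (Option.map e) (Option.map e)) := by
  unfold pad
  rw [List.map_map, List.length_map, List.length_map]
  apply List.map_congr_left
  intro i _
  simp

end pad

section relation

variable {α : Type*} {G : Type*} [Group G] (ι : α → G)

/-- evaluation of a word -/
def ev (w : List α) : G := (w.map ι).prod

@[simp] theorem ev_nil : ev ι [] = 1 := rfl
@[simp] theorem ev_cons (x : α) (w : List α) : ev ι (x :: w) = ι x * ev ι w := by simp [ev]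
@[simp] theorem ev_append (u v : List α) : ev ι (u ++ v) = ev ι u * ev ι v := by simp [ev]

variable {σ : Type} (M : DFA α σ) (S : Set G)

open Classical in
/-- the next state, if the difference stays in `S` -/
noncomputable def nxt (s1 s2 : σ) (e1 e2 : Bool) (g : G) : Option (σ × σ × Bool × Bool × S) :=
  if h : g ∈ S then some (s1, s2, e1, e2, ⟨g, h⟩) else none

/-- the step function of the two-tape automaton -/
noncomputable def stp : Option (σ × σ × Bool × Bool × S) → Option α × Option α →
    Option (σ × σ × Bool × Bool × S)
  | none, _ => none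
  | some (s1, s2, false, false, g), (some x, some y) =>
      nxt S (M.step s1 x) (M.step s2 y) false false ((ι x)⁻¹ * g * ι y)
  | some (s1, s2, false, _, g), (some x, none) =>
      nxt S (M.step s1 x) s2 false true ((ι x)⁻¹ * g)
  | some (s1, s2, _, false, g), (none, some y) =>
      nxt S s1 (M.step s2 y) true false (g * ι y)
  | some _, _ => none

theorem foldl_none (z : List (Option α × Option α)) :
    z.foldl (stp ι M S) none = none := by
  induction z with
  | nil => rfl
  | cons a z ih => simpa [stp] using ih

theorem sound (z : List (Option α × Option α)) : ∀ (s1 s2 : σ) (e1 e2 : Bool) (g : S)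
    (s1' s2' : σ) (e1' e2' : Bool) (g' : S),
    z.foldl (stp ι M S) (some (s1, s2, e1, e2, g)) = some (s1', s2', e1', e2', g') →
    ∃ u v : List α, z = pad u v ∧ (e1 = true → u = []) ∧ (e2 = true → v = []) ∧
      s1' = M.evalFrom s1 u ∧ s2' = M.evalFrom s2 v ∧ (g' : G) = (ev ι u)⁻¹ * g * ev ι v := by
  induction z with
  | nil =>
    intro s1 s2 e1 e2 g s1' s2' e1' e2' g' h
    simp only [List.foldl_nil, Option.some.injEq, Prod.mk.injEq] at h
    obtain ⟨rfl, rfl, rfl, rfl, rfl⟩ := h
    exact ⟨[], [], pad_nil_nil.symm, fun _ => rfl, fun _ => rfl, rfl, rfl, by simp⟩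
  | cons a z ih =>
    intro s1 s2 e1 e2 g s1' s2' e1' e2' g' h
    rw [List.foldl_cons] at h
    obtain ⟨a1, a2⟩ := a
    rcases a1 with _ | x <;> rcases a2 with _ | y
    · have : stp ι M S (some (s1, s2, e1, e2, g)) (none, none) = none := by
        cases e1 <;> cases e2 <;> rfl
      rw [this, foldl_none] at h
      exact absurd h (by simp)
    · -- (none, some y)
      rcases e2 with _ | _
      · have e : stp ι M S (some (s1, s2, e1, false, g)) (none, some y) =
            nxt S s1 (M.step s2 y) true false (g * ι y) := by
          cases e1 <;> rfl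
        rw [e] at h
        unfold nxt at h
        split_ifs at h with hS
        · obtain ⟨u, v, h1, h2, h3, h4, h5, h6⟩ := ih _ _ _ _ _ _ _ _ _ _ h
          have hu := h2 rfl
          subst hu
          refine ⟨[], y :: v, ?_, fun _ => rfl, fun h => by simp at h, h4, ?_, ?_⟩
          · rw [h1, pad_nil_cons]
          · rw [h5]; simp
          · rw [h6]; simp [mul_assoc]
        · rw [foldl_none] at h
          exact absurd h (by simp)
      · have : stp ι M S (some (s1, s2, e1, true, g)) (none, some y) = none := by
          cases e1 <;> rfl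
        rw [this, foldl_none] at h
        exact absurd h (by simp)
    · rcases e1 with _ | _
      · have e : stp ι M S (some (s1, s2, false, e2, g)) (some x, none) =
            nxt S (M.step s1 x) s2 false true ((ι x)⁻¹ * g) := by
          cases e2 <;> rfl
        rw [e] at h
        unfold nxt at h
        split_ifs at h with hS
        · obtain ⟨u, v, h1, h2, h3, h4, h5, h6⟩ := ih _ _ _ _ _ _ _ _ _ _ h
          have hv := h3 rfl
          subst hv
          refine ⟨x :: u, [], ?_, fun h => by simp at h, fun _ => rfl, ?_, h5, ?_⟩
          · rw [h1, pad_cons_nil]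
          · rw [h4]; simp
          · rw [h6]; simp [mul_assoc]
        · rw [foldl_none] at h
          exact absurd h (by simp)
      · have : stp ι M S (some (s1, s2, true, e2, g)) (some x, none) = none := by
          cases e2 <;> rfl
        rw [this, foldl_none] at h
        exact absurd h (by simp)
    · rcases e1 with _ | _ <;> rcases e2 with _ | _
      · have e : stp ι M S (some (s1, s2, false, false, g)) (some x, some y) =
            nxt S (M.step s1 x) (M.step s2 y) false false ((ι x)⁻¹ * g * ι y) := rfl
        rw [e] at h
        unfold nxt at h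
        split_ifs at h with hS
        · obtain ⟨u, v, h1, h2, h3, h4, h5, h6⟩ := ih _ _ _ _ _ _ _ _ _ _ h
          refine ⟨x :: u, y :: v, ?_, fun h => by simp at h, fun h => by simp at h, ?_, ?_, ?_⟩
          · rw [h1, pad_cons_cons]
          · rw [h4]; simp
          · rw [h5]; simp
          · rw [h6]; simp [mul_assoc]
        · rw [foldl_none] at h
          exact absurd h (by simp)
      all_goals
        exfalso
        change List.foldl (stp ι M S) none z = _ at h
        rw [foldl_none] at h
        exact absurd h (by simp)

theorem complete (u : List α) : ∀ (v : List α) (s1 s2 : σ) (e1 e2 : Bool) (g : S),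
    (e1 = true → u = []) → (e2 = true → v = []) →
    (∀ t, (ev ι (u.take t))⁻¹ * g * ev ι (v.take t) ∈ S) →
    ∃ e1' e2' g', (pad u v).foldl (stp ι M S) (some (s1, s2, e1, e2, g)) =
      some (M.evalFrom s1 u, M.evalFrom s2 v, e1', e2', g') ∧
      (g' : G) = (ev ι u)⁻¹ * g * ev ι v := by
  induction u with
  | nil =>
    intro v
    induction v with
    | nil =>
      intro s1 s2 e1 e2 g _ _ _
      exact ⟨e1, e2, g, by simp [pad_nil_nil], by simp⟩
    | cons y v ih =>
      intro s1 s2 e1 e2 g h1 h2 h3
      have he2 : e2 = false := by
        cases e2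
        · rfl
        · exact absurd (h2 rfl) (by simp)
      subst he2
      have hS : (g : G) * ι y ∈ S := by
        have := h3 1
        simpa using this
      have e : stp ι M S (some (s1, s2, e1, false, g)) (none, some y) =
          some (s1, M.step s2 y, true, false, ⟨(g : G) * ι y, hS⟩) := by
        have : stp ι M S (some (s1, s2, e1, false, g)) (none, some y) =
          nxt S s1 (M.step s2 y) true false (g * ι y) := by cases e1 <;> rfl
        rw [this]; unfold nxt; rw [dif_pos hS]
      rw [pad_nil_cons, List.foldl_cons, e]
      obtain ⟨e1', e2', g', h4, h5⟩ := ih s1 (M.step s2 y) true false ⟨(g : G) * ι y, hS⟩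
        (fun _ => rfl) (fun h => by simp at h) (by
          intro t
          have := h3 (t + 1)
          simpa [mul_assoc] using this)
      refine ⟨e1', e2', g', ?_, ?_⟩
      · rw [h4]; simp
      · rw [h5]; simp [mul_assoc]
  | cons x u ih =>
    intro v s1 s2 e1 e2 g h1 h2 h3
    have he1 : e1 = false := by
      cases e1
      · rfl
      · exact absurd (h1 rfl) (by simp)
    subst he1
    cases v with
    | nil =>
      have hS : (ι x)⁻¹ * (g : G) ∈ S := by
        have := h3 1
        simpa using this
      have e : stp ι M S (some (s1, s2, false, e2, g)) (some x, none) =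
          some (M.step s1 x, s2, false, true, ⟨(ι x)⁻¹ * (g : G), hS⟩) := by
        have : stp ι M S (some (s1, s2, false, e2, g)) (some x, none) =
          nxt S (M.step s1 x) s2 false true ((ι x)⁻¹ * g) := by cases e2 <;> rfl
        rw [this]; unfold nxt; rw [dif_pos hS]
      rw [pad_cons_nil, List.foldl_cons, e]
      obtain ⟨e1', e2', g', h4, h5⟩ := ih [] (M.step s1 x) s2 false true ⟨(ι x)⁻¹ * (g : G), hS⟩
        (fun h => by simp at h) (fun _ => rfl) (by
          intro t
          have := h3 (t + 1)
          simpa [mul_assoc] using this)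
      refine ⟨e1', e2', g', ?_, ?_⟩
      · rw [h4]; simp
      · rw [h5]; simp [mul_assoc]
    | cons y v =>
      have he2 : e2 = false := by
        cases e2
        · rfl
        · exact absurd (h2 rfl) (by simp)
      subst he2
      have hS : (ι x)⁻¹ * (g : G) * ι y ∈ S := by
        have := h3 1
        simpa using this
      have e : stp ι M S (some (s1, s2, false, false, g)) (some x, some y) =
          some (M.step s1 x, M.step s2 y, false, false, ⟨(ι x)⁻¹ * (g : G) * ι y, hS⟩) := by
        have : stp ι M S (some (s1, s2, false, false, g)) (some x, some y) =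
          nxt S (M.step s1 x) (M.step s2 y) false false ((ι x)⁻¹ * g * ι y) := rfl
        rw [this]; unfold nxt; rw [dif_pos hS]
      rw [pad_cons_cons, List.foldl_cons, e]
      obtain ⟨e1', e2', g', h4, h5⟩ := ih v (M.step s1 x) (M.step s2 y) false false
        ⟨(ι x)⁻¹ * (g : G) * ι y, hS⟩
        (fun h => by simp at h) (fun h => by simp at h) (by
          intro t
          have := h3 (t + 1)
          simpa [mul_assoc] using this)
      refine ⟨e1', e2', g', ?_, ?_⟩
      · rw [h4]; simp
      · rw [h5]; simp [mul_assoc]

/-- **Fellow travelling gives a two-tape automaton.** -/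
theorem relReg {L : Language α} (hL : L.IsRegular) (hS : S.Finite) (h1 : (1 : G) ∈ S) (x0 : G)
    (hft : ∀ u ∈ L, ∀ v ∈ L, ev ι u * x0 = ev ι v →
      ∀ t, (ev ι (u.take t))⁻¹ * ev ι (v.take t) ∈ S) :
    Language.IsRegular
      ({z | ∃ u ∈ L, ∃ v ∈ L, ev ι u * x0 = ev ι v ∧ z = pad u v} :
        Language (Option α × Option α)) := by
  classical
  obtain ⟨σ, hσ, M, rfl⟩ := hL
  have : Fintype S := hS.fintype
  refine Language.isRegular_iff.mpr ⟨Option (σ × σ × Bool × Bool × S), inferInstance,
    { step := stp ι M S
      start := some (M.start, M.start, false, false, ⟨1, h1⟩)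
      accept := {s | ∃ s1 s2 e1 e2 g, s = some (s1, s2, e1, e2, g) ∧ s1 ∈ M.accept ∧
        s2 ∈ M.accept ∧ (g : G) = x0} }, ?_⟩
  apply Set.ext
  intro z
  constructor
  · rintro ⟨s1, s2, e1, e2, g, h, ha1, ha2, hg⟩
    obtain ⟨u, v, hz, -, -, hs1, hs2, hg'⟩ := sound ι M S z _ _ _ _ _ _ _ _ _ _ h
    refine ⟨u, ?_, v, ?_, ?_, hz⟩
    · rw [DFA.mem_accepts]
      unfold DFA.eval
      rw [← hs1]; exact ha1
    · rw [DFA.mem_accepts]
      unfold DFA.eval
      rw [← hs2]; exact ha2
    · rw [← hg, hg']; simp
  · rintro ⟨u, hu, v, hv, he, rfl⟩
    obtain ⟨e1, e2, g, h2, h3⟩ := complete ι M S u v M.start M.start false false ⟨1, h1⟩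
      (fun h => by simp at h) (fun h => by simp at h) (by
        intro t
        have := hft u hu v hv he t
        simpa using this)
    refine ⟨M.evalFrom M.start u, M.evalFrom M.start v, e1, e2, g, h2, hu, hv, ?_⟩
    rw [h3, ← he]; simp

end relation

end Pool.Agent.R646.A
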