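import Pool.Agent.R646.A.Grp

set_option autoImplicit false
set_option linter.unusedSectionVars false

/-!
# The language of normal forms
-/

namespace Pool.Agent.R646.A

/-- four numbers -/
abbrev Pat : Type := ℕ × ℕ × ℕ × ℕ
/-- four signs -/
abbrev Sgn : Type := Bool × Bool × Bool × Bool

/-- core paths for small counters, cut in three pieces; `false` is `p`, `true` is `q` -/
def table : List (Pat × List Bool × List Bool × List Bool) := [
    ((0, 0, 0, 0), ([],
      [], [])),
    ((0, 0, 0, 1), ([],
      [], [true])),
    ((0, 0, 0, 2), ([],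
      [], [true, true])),
    ((0, 0, 1, 1), ([],
      [true, false], [])),
    ((0, 0, 2, 0), ([],
      [true, false, false], [true])),
    ((0, 0, 2, 1), ([],
      [true, false, false], [])),
    ((0, 0, 2, 2), ([],
      [true, false, false], [true])),
    ((0, 1, 1, 1), ([true, false],
      [], [true])),
    ((0, 2, 0, 0), ([false],
      [], [true, true, false])),
    ((0, 2, 0, 1), ([false],
      [], [true, true, false, true])),
    ((0, 2, 0, 2), ([false],
      [], [true, true, false, true, true])),
    ((0, 2, 1, 1), ([true, false],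
      [true, true], [])),
    ((0, 2, 2, 0), ([false],
      [true, false, false], [true, false])),
    ((0, 2, 2, 1), ([true, false],
      [true, true, false], [])),
    ((0, 2, 2, 2), ([true, false],
      [true, true, false], [true])),
    ((1, 0, 0, 0), ([],
      [], [false])),
    ((1, 0, 0, 2), ([],
      [], [true, true, false])),
    ((1, 0, 2, 0), ([],
      [false, true, false, false], [true])),
    ((1, 0, 2, 2), ([],
      [true, false, false], [true, false])),
    ((1, 1, 0, 0), ([false],
      [], [true])),
    ((1, 1, 0, 2), ([true, true, false],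
      [], [true])),
    ((1, 1, 1, 0), ([false],
      [true, false], [])),
    ((1, 1, 1, 1), ([false],
      [true, false], [true])),
    ((1, 1, 1, 2), ([false],
      [true, false, true, true], [])),
    ((1, 1, 2, 0), ([false],
      [true, false, false], [])),
    ((1, 1, 2, 2), ([false],
      [true, false, true, true, false], [])),
    ((1, 2, 0, 0), ([false],
      [], [true, true])),
    ((1, 2, 0, 2), ([true, true, false],
      [], [true, true])),
    ((1, 2, 2, 0), ([false],
      [true, false, false], [true])),
    ((1, 2, 2, 2), ([false],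
      [true, false, true, true, false], [true])),
    ((2, 0, 0, 0), ([],
      [], [false, false])),
    ((2, 0, 0, 1), ([],
      [], [false, false, true])),
    ((2, 0, 0, 2), ([],
      [], [false, false, true, true])),
    ((2, 0, 1, 1), ([],
      [false, false, true, false], [])),
    ((2, 0, 2, 0), ([],
      [false, true, false, false], [true, false])),
    ((2, 0, 2, 1), ([],
      [false, false, true, false, false], [])),
    ((2, 0, 2, 2), ([],
      [false, false, true, false, false], [true])),
    ((2, 1, 1, 1), ([false],
      [false, true, false], [true])),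
    ((2, 2, 0, 0), ([false],
      [], [true, true, false])),
    ((2, 2, 0, 1), ([false],
      [], [true, true, false, true])),
    ((2, 2, 0, 2), ([false],
      [], [true, true, false, true, true])),
    ((2, 2, 1, 1), ([false],
      [false, true, false, true, true], [])),
    ((2, 2, 2, 0), ([false],
      [true, false, false], [true, false])),
    ((2, 2, 2, 1), ([false],
      [false, true, false, true, true, false], [])),
    ((2, 2, 2, 2), ([false],
      [false, true, false, true, true, false], [true]))
  ]

/-- signs along a path -/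
def sgnw (e : Sgn) (n : Pat) : Bool → Bool → Bool → List Bool → List Ltr
  | _, _, _, [] => []
  | s, t, f, false :: w =>
      match t with
      | true => if n.2.2.1 = 0 then (false, f) :: sgnw e n (!s) t (!f) w
          else (false, e.2.2.1) :: sgnw e n (!s) t f w
      | false => if n.1 = 0 then (false, f) :: sgnw e n (!s) t (!f) w
          else (false, e.1) :: sgnw e n (!s) t f w
  | s, t, f, true :: w =>
      match s with
      | true => if n.2.1 = 0 then (true, f) :: sgnw e n s (!t) (!f) w
          else (true, e.2.1) :: sgnw e n s (!t) f w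
      | false => if n.2.2.2 = 0 then (true, f) :: sgnw e n s (!t) (!f) w
          else (true, e.2.2.2) :: sgnw e n s (!t) f w

/-- the signed core -/
def core (x : Pat × List Bool × List Bool × List Bool) (e : Sgn) : List Ltr :=
  sgnw e x.1 false false false (x.2.1 ++ x.2.2.1 ++ x.2.2.2)

/-- first piece -/
def c1 (x : Pat × List Bool × List Bool × List Bool) (e : Sgn) : List Ltr :=
  (core x e).take x.2.1.length
/-- second piece -/
def c2 (x : Pat × List Bool × List Bool × List Bool) (e : Sgn) : List Ltr :=
  ((core x e).drop x.2.1.length).take x.2.2.1.length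
/-- third piece -/
def c3 (x : Pat × List Bool × List Bool × List Bool) (e : Sgn) : List Ltr :=
  ((core x e).drop x.2.1.length).drop x.2.2.1.length

/-- the finite check -/
def chk (x : Pat × List Bool × List Bool × List Bool) (e : Sgn) : Prop :=
  evl (c1 x e ++ (c2 x e ++ c3 x e)) = ⟨sg e.1 * x.1.1, sg e.2.1 * x.1.2.1,
    sg e.2.2.1 * x.1.2.2.1, sg e.2.2.2 * x.1.2.2.2, decide ((x.1.1 + x.1.2.2.1) % 2 = 1),
    decide ((x.1.2.1 + x.1.2.2.2) % 2 = 1)⟩ ∧
  (c1 x e ++ (c2 x e ++ c3 x e)).length = x.1.1 + x.1.2.1 + x.1.2.2.1 + x.1.2.2.2 +
    (if Bad x.1.1 x.1.2.1 x.1.2.2.1 x.1.2.2.2 then 2 else 0) ∧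
  (x.1.2.1 ≠ 0 → (evl (c1 x e)).s = true) ∧ (x.1.2.2.1 ≠ 0 → (evl (c1 x e ++ c2 x e)).t = true) ∧
  x.1.1 ≤ 2 ∧ x.1.2.1 ≤ 2 ∧ x.1.2.2.1 ≤ 2 ∧ x.1.2.2.2 ≤ 2

instance (x : Pat × List Bool × List Bool × List Bool) (e : Sgn) : Decidable (chk x e) := by
  unfold chk; infer_instance

theorem table_ok : ∀ x ∈ table, ∀ e : Sgn, chk x e := by decide +kernel

theorem table_complete : ∀ a ∈ List.range 3, ∀ b ∈ List.range 3, ∀ c ∈ List.range 3,
    ∀ d ∈ List.range 3, ((a + d) % 2 = 1 ↔ ((a + c) % 2 = 1 ∨ (b + d) % 2 = 1)) →
    ∃ x ∈ table, x.1 = (a, b, c, d) := by decide +kernel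

end Pool.Agent.R646.A
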